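import Pool.Agent.H435.CV.Fin
import Pool.Agent.H435.VG.Fin

/-!
The degrees of the curves in all generic complete intersections of dimension two.
-/

set_option autoImplicit false

open MvPolynomial FF Pool.Agent.W603.LV Pool.Agent.W603.PV Pool.Agent.TH145.GH
open Pool.Agent.Y735 (fht fht_nonneg)
open Pool.Agent.W602.GT Pool.Agent.TH145.GF
open Pool.Agent.TH145.GC (Cf Rt)

namespace Pool.Agent.H435.CV

open Pool.Agent.Y741

section

variable {k0 k L : Type} [Field k0] [Field k] [Field L] [Algebra k0 k] [Algebra k L]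
  [IsAlgClosed k] [CharZero k] [IsFF k L] {n : ℕ} {A : Type} [Fintype A]
  {dg : A → ℕ}

/-- A surface in space. -/
theorem main_one (hcard : Fintype.card A = 1) (hn : n = 3)
    {G : A → MvPolynomial (Fin (n + 1)) k} (hG : ∀ a, (G a).IsHomogeneous (dg a))
    (hind : AlgebraicIndependent k0 fun p : Cf n dg => (G p.1).coeff p.2.1)
    (hsum : 5 ≤ ∑ a, dg a)
    {x : Fin (n + 1) → L} {a b : Fin (n + 1)} (hb : x b ≠ 0)
    (hab : Transcendental k (x a / x b)) (hx : ∀ a, aeval x (G a) = 0) :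
    (2 * ((∑ a, dg a : ℕ) : ℤ) - 9) * pht k x ≤ 2 * canDeg k L := by
  subst hn
  obtain ⟨e, he⟩ := Fintype.card_eq_one_iff.1 hcard
  have h1 : ∑ a, dg a = dg e := by
    rw [Fintype.sum_eq_single e fun a ha => absurd (he a) ha]
  rw [h1] at hsum ⊢
  exact VG.main2 (k0 := k0) hsum (hG e) (hind.comp (fun I : {I : Fin (3 + 1) →₀ ℕ //
    I.degree = dg e} => (⟨e, I⟩ : Cf 3 dg)) fun I J h => by
      have h2 := (Sigma.mk.inj_iff.1 h).2
      exact eq_of_heq h2) hb hab (hx e)

/-- The degrees of the curves in a generic complete intersection of dimension two. -/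
theorem main2 (hn : n = Fintype.card A + 2) (hdg : ∀ a, 2 ≤ dg a) (hsum : n + 2 ≤ ∑ a, dg a)
    {G : A → MvPolynomial (Fin (n + 1)) k} (hG : ∀ a, (G a).IsHomogeneous (dg a))
    (hind : AlgebraicIndependent k0 fun p : Cf n dg => (G p.1).coeff p.2.1)
    {x : Fin (n + 1) → L} {a b : Fin (n + 1)} (hb : x b ≠ 0)
    (hab : Transcendental k (x a / x b)) (hx : ∀ a, aeval x (G a) = 0) :
    ((2 * n ≤ ∑ a with dg a ≤ 4, (dg a + 1) + 1 ∨ Fintype.card A = 1) →
      (2 * ((∑ a, dg a : ℕ) : ℤ) - 2 * n - 3) * pht k x ≤ 2 * canDeg k L) ∧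
    (((∑ a, dg a : ℕ) : ℤ) - n - 2) * pht k x ≤ canDeg k L ∧
    (((∑ a, dg a : ℕ) : ℤ) - n - 1) * pht k x ≤ 2 * canDeg k L := by
  classical
  have h1 := pht_scale (k := k) (f := x) ⟨b, hb⟩ (inv_ne_zero hb)
  have h12 := main1 (k0 := k0) (L := L) hn hdg hsum hG hind (x := fun j => (x b)⁻¹ * x j)
    (a0 := b) (l0 := a) (inv_mul_cancel₀ hb) (by
      rw [mul_comm, ← div_eq_mul_inv]
      exact hab) fun e => by
      have h2 := eval_smul_hom ((hG e).map (algebraMap k L)) x (x b)⁻¹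
      rw [eval_map, eval_map] at h2
      have h3 : (fun j => (x b)⁻¹ * x j) = (x b)⁻¹ • x := rfl
      rw [h3]
      change eval₂ (algebraMap k L) ((x b)⁻¹ • x) (G e) = 0
      rw [h2]
      have h4 : eval₂ (algebraMap k L) x (G e) = 0 := hx e
      rw [h4, mul_zero]
  rw [h1] at h12
  obtain ⟨h4, h5⟩ := h12
  have h6 : ((2 * n ≤ ∑ a with dg a ≤ 4, (dg a + 1) + 1 ∨ Fintype.card A = 1) →
      (2 * ((∑ a, dg a : ℕ) : ℤ) - 2 * n - 3) * pht k x ≤ 2 * canDeg k L) := by
    rintro (h | h)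
    · exact h4 h
    · have h7 := main_one h (by omega) hG hind (by omega) hb hab hx
      have h8 : (n : ℤ) = 3 := by
        have : n = 3 := by omega
        exact_mod_cast this
      have h9 : 2 * ((∑ a, dg a : ℕ) : ℤ) - 2 * n - 3 = 2 * ((∑ a, dg a : ℕ) : ℤ) - 9 := by
        rw [h8]
        ring
      rw [h9]
      exact h7
  refine ⟨h6, h5, ?_⟩
  have h0 : 0 ≤ pht k x := by
    rw [← Pool.Agent.Y735.fht_fin]
    exact Pool.Agent.Y735.fht_nonneg fun h => hb (congrFun h b)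
  obtain ⟨S, hSd⟩ : ∃ S : ℤ, S = ((∑ a, dg a : ℕ) : ℤ) := ⟨_, rfl⟩
  rcases Nat.eq_or_lt_of_le hsum with hs | hs
  · have h7 : 2 * n ≤ ∑ a with dg a ≤ 4, (dg a + 1) + 1 ∨ Fintype.card A = 1 := by
      by_cases hA : Fintype.card A = 1
      · exact Or.inr hA
      left
      have h12 : ∀ e, dg e ≤ 4 := by
        by_contra hcon
        push Not at hcon
        obtain ⟨e, he⟩ := hcon
        have h8 : ∑ a, (dg a - 1) + ∑ a : A, 1 = ∑ a, dg a := by
          rw [← Finset.sum_add_distrib]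
          exact Finset.sum_congr rfl fun a _ => by have := hdg a; omega
        rw [Finset.sum_const, Finset.card_univ, smul_eq_mul, mul_one] at h8
        have h9 : 0 < Fintype.card A := Fintype.card_pos_iff.2 ⟨e⟩
        obtain ⟨e', he'⟩ := Fintype.exists_ne_of_one_lt_card (by omega : 1 < Fintype.card A) e
        have h10 : ∑ a ∈ ({e', e} : Finset A), (dg a - 1) ≤ ∑ a, (dg a - 1) :=
          Finset.sum_le_sum_of_subset (Finset.subset_univ _)
        rw [Finset.sum_pair he'] at h10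
        have h11 := hdg e'
        omega
      rw [Finset.filter_true_of_mem fun a _ => h12 a, Finset.sum_add_distrib, Finset.sum_const,
        Finset.card_univ, smul_eq_mul, mul_one]
      omega
    have h8 := h6 h7
    have h9 : ((∑ a, dg a : ℕ) : ℤ) = n + 2 := by exact_mod_cast hs.symm
    rw [h9] at h8 ⊢
    linarith
  · have h3 : (n : ℤ) + 3 ≤ ((∑ a, dg a : ℕ) : ℤ) := by exact_mod_cast hs
    rw [← hSd] at h3 h5 ⊢
    nlinarith

end

end Pool.Agent.H435.CV
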