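import Pool.Agent.H435.CV.Pt
import Pool.Agent.H435.ST.Ln

/-!
The line and the linear form in a finite extension.
-/

set_option autoImplicit false
set_option linter.unusedSectionVars false

open MvPolynomial FF Pool.Agent.W603.LV Pool.Agent.W603.PV Pool.Agent.TH145.GH
open Pool.Agent.Y735 (lf lf_apply lf_hom eval_lf pm tm lf_pm sum_pm sum_tm eval_pm pl po po_le
  exists_po fht fht_nonneg sum_two po_finite)
open Pool.Agent.W602.GT

namespace Pool.Agent.H435.CV

open Pool.Agent.H435.VG (cQ cQ_monomial cQ_apply lin_hom)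
open Pool.Agent.H435.ST (lnp lnp_eval)

section

variable {L E : Type} [Field L] [Field E] [Algebra L E] {n : ℕ} {A : Type} [Fintype A]
  {F : A → MvPolynomial (Fin (n + 1)) L} {dg : A → ℕ}
  {x y : Fin (n + 1) → L} {c : A → (Fin (n + 1) →₀ ℕ) → L}

theorem cQ_map (c : (Fin (n + 1) →₀ ℕ) → L) (G : MvPolynomial (Fin (n + 1)) L) :
    cQ (fun J => algebraMap L E (c J)) (map (algebraMap L E) G) = algebraMap L E (cQ c G) := by
  rw [cQ_apply, cQ_apply, support_map_of_injective _ (algebraMap L E).injective, map_sum]
  refine Finset.sum_congr rfl fun J _ => ?_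
  rw [coeff_map, map_mul]

omit [Field L] [Algebra L E] in
/-- Linear forms that vanish on a line. -/
theorem tm_comb {x y : Fin (n + 1) → E} {q : Fin (n + 1) × Fin (n + 1)} (hq : pl x y q ≠ 0)
    {m : Fin (n + 1) → E} (hx : ∑ l, m l * x l = 0) (hy : ∑ l, m l * y l = 0) :
    m = (pl x y q)⁻¹ • ∑ j, m j • tm (pl x y) (q.1, q.2, j) := by
  funext l
  rw [Pi.smul_apply, smul_eq_mul, Finset.sum_apply]
  have h1 : ∀ a, ∑ j, m j * pl x y (a, j) = 0 := by
    intro a
    have h2 : ∑ j, m j * pl x y (a, j) = x a * ∑ j, m j * y j - y a * ∑ j, m j * x j := by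
      rw [Finset.mul_sum, Finset.mul_sum, ← Finset.sum_sub_distrib]
      exact Finset.sum_congr rfl fun j _ => by simp only [pl]; ring
    rw [h2, hx, hy]
    ring
  have h3 : ∑ j, (m j • tm (pl x y) (q.1, q.2, j)) l = pl x y q * m l := by
    have h4 : ∀ j, (m j • tm (pl x y) (q.1, q.2, j)) l =
        (if l = j then m j * pl x y q else 0) -
          (if l = q.2 then m j * pl x y (q.1, j) else 0) +
          (if l = q.1 then m j * pl x y (q.2, j) else 0) := by
      intro j
      simp only [Pi.smul_apply, smul_eq_mul, tm]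
      split_ifs <;> ring
    rw [Finset.sum_congr rfl fun j _ => h4 j, Finset.sum_add_distrib, Finset.sum_sub_distrib,
      Finset.sum_ite_eq Finset.univ l, if_pos (Finset.mem_univ l)]
    have h5 : ∀ a b, ∑ j, (if l = b then m j * pl x y (a, j) else 0) = 0 := by
      intro a b
      split_ifs
      · exact h1 a
      · exact Finset.sum_const_zero
    rw [h5, h5]
    ring
  rw [h3]
  field_simp

/-- The extension of the field. -/
theorem LineC.ext (h : LineC F dg x y c) : LineC (fun a => map (algebraMap L E) (F a)) dg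
    (fun l => algebraMap L E (x l)) (fun l => algebraMap L E (y l))
    (fun a J => algebraMap L E (c a J)) := by
  classical
  have hpl : ∀ q, pl (fun l => algebraMap L E (x l)) (fun l => algebraMap L E (y l)) q =
      algebraMap L E (pl x y q) := fun q => by simp [pl]
  have hplf : pl (fun l => algebraMap L E (x l)) (fun l => algebraMap L E (y l)) =
      fun q => algebraMap L E (pl x y q) := funext hpl
  obtain ⟨q, hq⟩ := Function.ne_iff.1 h.pl0
  have hq' : pl x y q ≠ 0 := hq
  have hqE : pl (fun l => algebraMap L E (x l)) (fun l => algebraMap L E (y l)) q ≠ 0 := by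
    rw [hpl]
    exact (_root_.map_ne_zero _).2 hq'
  refine ⟨fun h0 => hqE (by rw [h0]; rfl), ?_, fun a m hmx hmy S hS => ?_, fun p => ?_⟩
  · obtain ⟨a, J, hJ, hc⟩ := h.ex
    exact ⟨a, J, hJ, (_root_.map_ne_zero _).2 hc⟩
  · have h1 := lin_hom (T := cQ (fun J => algebraMap L E (c a J)) ∘ₗ LinearMap.mulLeft E (lf m))
      (T' := 0) (e := dg a - 2) (fun J hJ => ?_) hS
    · exact h1
    rw [LinearMap.comp_apply, LinearMap.mulLeft_apply, LinearMap.zero_apply, tm_comb hqE hmx hmy,
      map_smul, map_sum, smul_mul_assoc, map_smul, Finset.sum_mul, map_sum,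
      Finset.sum_eq_zero, smul_zero]
    intro j _
    rw [map_smul, smul_mul_assoc, map_smul]
    have h2 : lf (tm (pl (fun l => algebraMap L E (x l)) (fun l => algebraMap L E (y l)))
        (q.1, q.2, j)) * monomial J (1 : E) =
        map (algebraMap L E) (lf (tm (pl x y) (q.1, q.2, j)) * monomial J 1) := by
      rw [map_mul, MvPolynomial.map_monomial, (algebraMap L E).map_one]
      congr 1
      rw [lf_apply, lf_apply, map_sum]
      refine Finset.sum_congr rfl fun l _ => ?_
      rw [smul_eq_C_mul, smul_eq_C_mul, map_mul, map_C, map_X]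
      congr 2
      rw [hplf]
      simp only [tm]
      rw [map_add, map_sub]
      congr 1
      · congr 1
        · split_ifs
          · rfl
          · rw [map_zero]
        · split_ifs
          · rfl
          · rw [map_zero]
      · split_ifs
        · rfl
        · rw [map_zero]
    have h3 := sum_tm x y (q.1, q.2, j)
    rw [h2, cQ_map, h.van a _ h3.1 h3.2 _ (isHomogeneous_monomial 1 hJ), map_zero, smul_zero]
  · have h1 : ∀ a, cQ (fun J => algebraMap L E (c a J)) (pderiv p (map (algebraMap L E) (F a))) =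
        algebraMap L E (cQ (c a) (pderiv p (F a))) := fun a => by
      rw [pderiv_map, cQ_map]
    rw [Finset.sum_congr rfl fun a _ => h1 a, ← map_sum, h.jac, map_zero]

theorem lnp_map (G : MvPolynomial (Fin (n + 1)) L) (u w : Fin (n + 1) → L) :
    lnp (map (algebraMap L E) G) (fun l => algebraMap L E (u l)) (fun l => algebraMap L E (w l)) =
      (lnp G u w).map (algebraMap L E) := by
  have h2 : ((aeval (fun l => Polynomial.C (algebraMap L E (u l)) +
        Polynomial.X * Polynomial.C (algebraMap L E (w l))) :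
        MvPolynomial (Fin (n + 1)) E →ₐ[E] Polynomial E) :
        MvPolynomial (Fin (n + 1)) E →+* Polynomial E).comp (MvPolynomial.map (algebraMap L E)) =
      (Polynomial.mapRingHom (algebraMap L E)).comp
      ((aeval (fun l => Polynomial.C (u l) + Polynomial.X * Polynomial.C (w l)) :
        MvPolynomial (Fin (n + 1)) L →ₐ[L] Polynomial L) :
        MvPolynomial (Fin (n + 1)) L →+* Polynomial L) := by
    apply MvPolynomial.ringHom_ext
    · intro c
      rw [RingHom.comp_apply, RingHom.comp_apply, map_C, RingHom.coe_coe, RingHom.coe_coe,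
        aeval_C, aeval_C, Polynomial.coe_mapRingHom, Polynomial.algebraMap_eq,
        Polynomial.algebraMap_eq, Polynomial.map_C]
    · intro l
      rw [RingHom.comp_apply, RingHom.comp_apply, map_X, RingHom.coe_coe, RingHom.coe_coe,
        aeval_X, aeval_X, Polynomial.coe_mapRingHom, Polynomial.map_add, Polynomial.map_mul,
        Polynomial.map_C, Polynomial.map_C, Polynomial.map_X]
  exact DFunLike.congr_fun h2 G

theorem eval_Pt_map (F : MvPolynomial (Fin (n + 1)) L) (x y : Fin (n + 1) → L) (σ : E) :
    eval (Pt (fun l => algebraMap L E (x l)) (fun l => algebraMap L E (y l)) σ)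
      (map (algebraMap L E) F) = ((lnp F y x).map (algebraMap L E)).eval σ := by
  rw [← lnp_map, lnp_eval]
  congr 1
  congr 1
  funext l
  simp only [Pt]
  ring

/-- The degree of the form on the line. -/
theorem deg_lt [CharZero L] {F : MvPolynomial (Fin (n + 1)) L} {d : ℕ} (hF : F.IsHomogeneous d)
    (hx : eval x F = 0) (hne : lnp F y x ≠ 0) : (lnp F y x).natDegree < d := by
  by_contra hcon
  push Not at hcon
  obtain ⟨N, hN⟩ : ∃ N, N = (lnp F y x).natDegree := ⟨_, rfl⟩
  rw [← hN] at hcon
  have h1 : (lnp F y x).reverse = Polynomial.X ^ (N - d) * lnp F x y := by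
    refine Polynomial.eq_of_infinite_eval_eq _ _ ?_
    refine (Set.finite_singleton (0 : L)).infinite_compl.mono fun t ht => ?_
    have ht' : t ≠ 0 := ht
    change Polynomial.eval t _ = Polynomial.eval t _
    have h2 : Polynomial.eval t (lnp F y x).reverse =
        t ^ N * Polynomial.eval t⁻¹ (lnp F y x) := by
      let _ : Invertible t⁻¹ := invertibleOfNonzero (inv_ne_zero ht')
      have h3 := Polynomial.eval₂_reverse_mul_pow (RingHom.id L) t⁻¹ (lnp F y x)
      rw [invOf_eq_inv, inv_inv, ← hN] at h3
      rw [Polynomial.eval, Polynomial.eval, ← h3, inv_pow]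
      field_simp
    rw [h2, Polynomial.eval_mul, Polynomial.eval_pow, Polynomial.eval_X, lnp_eval, lnp_eval]
    have h3 : (fun l => x l + t * y l) = t • fun l => y l + t⁻¹ * x l := by
      funext l
      simp only [Pi.smul_apply, smul_eq_mul]
      field_simp
      ring
    rw [h3, eval_smul_hom hF]
    have h4 : t ^ N = t ^ (N - d) * t ^ d := by
      rw [← pow_add]
      congr 1
      omega
    rw [h4]
    ring
  have h2 := congrArg (fun p => p.coeff 0) h1
  simp only [Polynomial.coeff_zero_reverse, Polynomial.mul_coeff_zero] at h2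
  have h3 : (lnp F x y).coeff 0 = 0 := by
    rw [Polynomial.coeff_zero_eq_eval_zero, lnp_eval]
    have h4 : (fun l => x l + 0 * y l) = x := by
      funext l
      rw [zero_mul, add_zero]
    rw [h4, hx]
  rw [h3, mul_zero] at h2
  exact hne (Polynomial.leadingCoeff_eq_zero.1 h2)

/-- The form vanishes on the line, or all its roots on the line are in the field. -/
def Sp (F : MvPolynomial (Fin (n + 1)) L) (d : ℕ) (x y : Fin (n + 1) → L) : Prop :=
  (∀ σ, eval (Pt x y σ) F = 0) ∨ ∃ (N r : ℕ) (c0 : L) (s : Fin N → L), N + r = d ∧ 1 ≤ r ∧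
    c0 ≠ 0 ∧ ∀ σ, eval (Pt x y σ) F = c0 * ∏ i, (σ - s i)

theorem Sp_ext [CharZero L] {F : MvPolynomial (Fin (n + 1)) L} {d : ℕ} (hF : F.IsHomogeneous d)
    (hx : eval x F = 0) (hsp : lnp F y x ≠ 0 → ((lnp F y x).map (algebraMap L E)).Splits) :
    Sp (map (algebraMap L E) F) d (fun l => algebraMap L E (x l))
      (fun l => algebraMap L E (y l)) := by
  classical
  obtain ⟨f, hf⟩ : ∃ f, f = lnp F y x := ⟨_, rfl⟩
  by_cases hf0 : f = 0
  · left
    intro σ
    rw [eval_Pt_map, ← hf, hf0, Polynomial.map_zero, Polynomial.eval_zero]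
  right
  have hsp' : (f.map (algebraMap L E)).Splits := by
    rw [hf] at hf0 ⊢
    exact hsp hf0
  have hlt : f.natDegree < d := by
    rw [hf] at hf0 ⊢
    exact deg_lt hF hx hf0
  obtain ⟨s', hs'⟩ : ∃ s' : Multiset E, s' = (f.map (algebraMap L E)).roots := ⟨_, rfl⟩
  have hcard : s'.card = f.natDegree := by
    rw [hs']
    have := hsp'.natDegree_eq_card_roots
    rw [Polynomial.natDegree_map] at this
    exact this.symm
  have hprod := hsp'.eq_prod_roots
  rw [← hs', Polynomial.leadingCoeff_map] at hprod
  obtain ⟨l, hl⟩ : ∃ l : List E, (l : Multiset E) = s' := ⟨s'.toList, Multiset.coe_toList s'⟩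
  have hlen : l.length = f.natDegree := by
    rw [← hcard, ← hl, Multiset.coe_card]
  refine ⟨l.length, d - f.natDegree, algebraMap L E f.leadingCoeff, fun i => l.get i, by omega,
    by omega, (_root_.map_ne_zero _).2 (Polynomial.leadingCoeff_ne_zero.2 hf0), fun σ => ?_⟩
  rw [eval_Pt_map, ← hf, hprod, Polynomial.eval_mul, Polynomial.eval_C, ← hl, Multiset.map_coe,
    Multiset.prod_coe, Polynomial.eval_list_prod, List.map_map]
  congr 1
  rw [← List.prod_ofFn]
  congr 1
  apply List.ext_get
  · simp
  · intro n h1 h2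
    simp

end

end Pool.Agent.H435.CV
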