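import Pool.Agent.H435.CV.Ext

/-!
The degrees of the curves in a generic complete intersection of dimension two.
-/

set_option autoImplicit false
set_option linter.unusedSectionVars false

open MvPolynomial FF Pool.Agent.W603.LV Pool.Agent.W603.PV Pool.Agent.TH145.GH
open Pool.Agent.Y735 (lf lf_apply lf_hom eval_lf pm tm lf_pm sum_pm sum_tm eval_pm pl po po_le
  exists_po fht fht_nonneg sum_two po_finite)
open Pool.Agent.W602.GT Pool.Agent.TH145.GF
open Pool.Agent.TH145.GC (Cf Rt)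

namespace Pool.Agent.H435.CV

open Pool.Agent.Y741
open Pool.Agent.H435.VG (cQ cQ_monomial cQ_apply lin_hom fht_ext)
open Pool.Agent.H435.ST (lnp lnp_eval)
open Pool.Agent.H435.CT (no_onL)

section

variable {k L : Type} [Field k] [Field L] [Algebra k L] [IsAlgClosed k] [CharZero k] [IsFF k L]
  {n : ℕ} {A : Type} [DecidableEq A] [Fintype A]
  {F : Fam L n A} {dg : A → ℕ} {D : A → (Fin (n + 1) →₀ ℕ) → Derivation ℤ L L}
  {x y : Fin (n + 1) → L} {c : A → (Fin (n + 1) →₀ ℕ) → L}

/-- The height of the point, if the roots of the forms on the line are in the field. -/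
theorem fin_case (h : LineC F dg x y c) (hF : ∀ a, (F a).IsHomogeneous (dg a))
    (hD : TH145.GC.Dual F dg D) (hFk : ∀ a u, ∃ c : k, (F a).coeff u = algebraMap k L c)
    (hdg : ∀ a, 2 ≤ dg a)
    (hsp : ∀ a, Sp (F a) (dg a) x y)
    (hnv : ∃ a, dg a ≤ 4 ∧ ¬ ∀ σ, eval (Pt x y σ) (F a) = 0) :
    pht k x ≤ 2 * (fht k (pl x y) + fht k (cf dg c)) := by
  classical
  have hfd : ∀ a, Finite {J : Fin (n + 1) →₀ ℕ // J.degree = dg a - 1} := fun a =>
    finite_deg n (dg a - 1)
  by_contra hcon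
  push Not at hcon
  obtain ⟨H, hH⟩ : ∃ H, H = fht k (pl x y) := ⟨_, rfl⟩
  obtain ⟨f, hf⟩ : ∃ f, f = fht k (cf dg c) := ⟨_, rfl⟩
  obtain ⟨p, hp⟩ : ∃ p : L → ℤ, ∀ s, p s = pht k (Pt x y s) := ⟨_, fun _ => rfl⟩
  obtain ⟨h0, hh0⟩ : ∃ h0, h0 = pht k x := ⟨_, rfl⟩
  have hH0 : 0 ≤ H := by rw [hH]; exact fht_nonneg h.pl0
  have hf0 : 0 ≤ f := by rw [hf]; exact fht_nonneg (cf_ne h)
  have hp0 : ∀ s, 0 ≤ p s := fun s => by
    rw [hp]
    exact Pool.Agent.Y741.pht_nonneg (Pt_ne h.pl0 s)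
  rw [← hH, ← hf, ← hh0] at hcon
  obtain ⟨a, hda4, ha⟩ := hnv
  -- the roots of the form on the line
  obtain ⟨hda, N, c0, s, hN, hfac, hsum1⟩ : 3 ≤ dg a ∧
      ∃ (N : ℕ) (c0 : L) (s : Fin N → L), N + 1 = dg a ∧
        (∀ σ, eval (Pt x y σ) (F a) = c0 * ∏ i, (σ - s i)) ∧
        h0 + ∑ i, p (s i) ≤ dg a * H := by
    obtain ⟨N, r, c0, s, hN, hr, hc0, hfac⟩ := (hsp a).resolve_left ha
    have h1 := roots_ht (hF a) (hFk a) h.pl0 hN hc0 s hfac
    rw [← hh0, ← hH] at h1
    have h2 : ∑ i, pht k (Pt x y (s i)) = ∑ i, p (s i) :=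
      Finset.sum_congr rfl fun i _ => (hp _).symm
    rw [h2] at h1
    have h3 : 0 ≤ ∑ i, p (s i) := Finset.sum_nonneg fun i _ => hp0 _
    have h4 : (dg a : ℤ) ≤ 4 := by exact_mod_cast hda4
    have h5 : (2 : ℤ) ≤ dg a := by exact_mod_cast hdg a
    have hr1 : r = 1 := by
      by_contra hne
      have h6 : (2 : ℤ) ≤ r := by
        have : 2 ≤ r := by omega
        exact_mod_cast this
      nlinarith
    subst hr1
    rw [Nat.cast_one, one_mul] at h1
    refine ⟨?_, N, c0, s, hN, hfac, h1⟩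
    by_contra hne
    have h6 : dg a = 2 := by
      have := hdg a
      omega
    rw [h6] at h1
    push_cast at h1
    linarith
  have hNpos : 0 < N := by omega
  obtain ⟨i, -, hi⟩ := Finset.exists_min_image (Finset.univ : Finset (Fin N))
    (fun i => p (s i)) ⟨⟨0, hNpos⟩, Finset.mem_univ _⟩
  have h1 := Finset.card_nsmul_le_sum (Finset.univ : Finset (Fin N)) (fun i => p (s i))
    (p (s i)) fun j hj => hi j hj
  rw [Finset.card_univ, Fintype.card_fin, nsmul_eq_mul] at h1
  have hps := hp0 (s i)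
  have hd : h0 + 2 * p (s i) ≤ 3 * H ∨ h0 + 3 * p (s i) ≤ 4 * H := by
    rcases (by omega : dg a = 3 ∨ dg a = 4) with h3 | h3
    · left
      have h4 : (N : ℤ) = 2 := by
        have : N = 2 := by omega
        exact_mod_cast this
      rw [h3] at hsum1
      rw [h4] at h1
      push_cast at hsum1
      linarith
    · right
      have h4 : (N : ℤ) = 3 := by
        have : N = 3 := by omega
        exact_mod_cast this
      rw [h3] at hsum1
      rw [h4] at h1
      push_cast at hsum1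
      linarith
  have h2 : p (s i) ≤ H := by
    rcases hd with hd | hd <;> linarith
  rcases h.ht_alt (k := k) hF hD hdg (s i) (by rw [← hp, ← hH]; exact h2) with h3 | ⟨b, hb, h3⟩
  · rw [← hp, ← hH, ← hf] at h3
    rcases hd with hd | hd <;> linarith
  · -- another form that does not vanish at the point
    rw [← hp, ← hf] at h3
    obtain ⟨N', r, c0', s', hN', hr, hc0', hfac'⟩ := (hsp b).resolve_left fun hcon => hb (hcon _)
    have hne : ∀ j, s i ≠ s' j := by
      intro j hj
      apply hb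
      rw [hfac', Finset.prod_eq_zero (Finset.mem_univ j) (by rw [hj, sub_self]), mul_zero]
    have h4 : ∀ j ∈ (Finset.univ : Finset (Fin N')), H - p (s i) ≤ pht k (Pt x y (s' j)) :=
      fun j _ => by
        have h5 := two_pts (k := k) h.pl0 (hne j)
        rw [← hp, ← hH] at h5
        linarith
    have h5 := Finset.card_nsmul_le_sum (Finset.univ : Finset (Fin N'))
      (fun j => pht k (Pt x y (s' j))) (H - p (s i)) h4
    rw [Finset.card_univ, Fintype.card_fin, nsmul_eq_mul] at h5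
    have h6 := roots_ht (hF b) (hFk b) h.pl0 hN' hc0' s' hfac'
    rw [← hh0, ← hH] at h6
    have h7 : (dg b : ℤ) = N' + r := by exact_mod_cast hN'.symm
    have h8 : (1 : ℤ) ≤ r := by exact_mod_cast hr
    rw [h7] at h3 h6
    have h9 : (r : ℤ) * h0 ≤ r * H + N' * p (s i) := by nlinarith
    have h10 : (N' : ℤ) * p (s i) ≤ f := by nlinarith
    nlinarith

end

section

variable {k0 k L : Type} [Field k0] [Field k] [Field L] [Algebra k0 k] [Algebra k L]
  [IsAlgClosed k] [CharZero k] [IsFF k L] {n : ℕ} {A : Type} [Fintype A] [DecidableEq A]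
  {dg : A → ℕ}

/-- The height of the point, with an extension of the field that contains the roots. -/
theorem half_ext (hdg : ∀ a, 2 ≤ dg a)
    {G : A → MvPolynomial (Fin (n + 1)) k} (hG : ∀ a, (G a).IsHomogeneous (dg a))
    (hind : AlgebraicIndependent k0 fun p : Cf n dg => (G p.1).coeff p.2.1)
    {E : Type} [Field E] [Algebra k E]
    [Algebra L E] [IsScalarTower k L E] [FiniteDimensional L E] [IsFF k E]
    {F : Fam L n A} (hFG : ∀ a, F a = map (algebraMap k L) (G a))
    {x y : Fin (n + 1) → L} {c : A → (Fin (n + 1) →₀ ℕ) → L}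
    (hx : ∀ a, eval x (F a) = 0) (h : LineC F dg x y c)
    (hsp : ∀ a, lnp (F a) y x ≠ 0 → ((lnp (F a) y x).map (algebraMap L E)).Splits)
    (hnv : ∃ a, dg a ≤ 4 ∧ lnp (F a) y x ≠ 0) :
    pht k x ≤ 2 * (fht k (pl x y) + fht k (cf dg c)) := by
  classical
  have hLz : CharZero L := charZero_of_injective_algebraMap (algebraMap k L).injective
  have hEz : CharZero E := charZero_of_injective_algebraMap (algebraMap k E).injective
  have hfd : ∀ a, Finite {J : Fin (n + 1) →₀ ℕ // J.degree = dg a - 1} := fun a =>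
    finite_deg n (dg a - 1)
  have hF : ∀ a, (F a).IsHomogeneous (dg a) := fun a => by
    rw [hFG]
    exact (hG a).map _
  have hmm : ∀ a, map (algebraMap L E) (F a) = map (algebraMap k E) (G a) := fun a => by
    rw [hFG, map_map, ← IsScalarTower.algebraMap_eq]
  obtain ⟨ι, t, ht⟩ := exists_isTranscendenceBasis' k E
  obtain ⟨D, hD, -, -⟩ := exists_duals_L ht G hind
  have hD' : TH145.GC.Dual (fun a => map (algebraMap L E) (F a)) dg D := by
    have h1 : (fun a => map (algebraMap L E) (F a)) = fun a => map (algebraMap k E) (G a) :=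
      funext hmm
    rw [h1]
    exact hD
  have h1 := fin_case (k := k) (L := E) (h.ext (E := E)) (fun a => (hF a).map _) hD'
    (fun a u => by
      rw [hmm, coeff_map]
      exact ⟨_, rfl⟩) hdg (fun a => Sp_ext (hF a) (hx a) (hsp a)) (by
      obtain ⟨a, ha4, ha⟩ := hnv
      refine ⟨a, ha4, fun hcon => ha ?_⟩
      have h2 : (lnp (F a) y x).map (algebraMap L E) = 0 := by
        refine Polynomial.funext fun σ => ?_
        rw [← eval_Pt_map, Polynomial.eval_zero]
        exact hcon σ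
      exact (Polynomial.map_eq_zero _).1 h2)
  have h2 := fht_ext (k := k) (L := L) (E := E) (x_ne h.pl0)
  have h3 := fht_ext (k := k) (L := L) (E := E) h.pl0
  have h4 := fht_ext (k := k) (L := L) (E := E) (cf_ne h)
  have h5 : pl (fun l => algebraMap L E (x l)) (fun l => algebraMap L E (y l)) =
      fun q => algebraMap L E (pl x y q) := funext fun q => by simp [pl]
  have h6 : cf dg (fun a J => algebraMap L E (c a J)) = fun q => algebraMap L E (cf dg c q) := rfl
  have h7 : (0 : ℤ) < Module.finrank L E := by exact_mod_cast Module.finrank_pos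
  rw [← Pool.Agent.Y735.fht_fin, h5, h6, h2, h3, h4] at h1
  rw [← Pool.Agent.Y735.fht_fin]
  nlinarith [h1]

/-- There are no lines in the intersection of the hypersurfaces of degrees at most four. -/
theorem exists_low {G : A → MvPolynomial (Fin (n + 1)) k} (hG : ∀ a, (G a).IsHomogeneous (dg a))
    (hind : AlgebraicIndependent k0 fun p : Cf n dg => (G p.1).coeff p.2.1)
    (hlow : 2 * n ≤ ∑ a with dg a ≤ 4, (dg a + 1) + 1)
    {F : Fam L n A} (hFG : ∀ a, F a = map (algebraMap k L) (G a))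
    {x y : Fin (n + 1) → L} (hpl : pl x y ≠ 0) (hxC : ∀ a, eval x (F a) = 0) :
    ∃ a, dg a ≤ 4 ∧ lnp (F a) y x ≠ 0 := by
  classical
  by_contra hcon
  push Not at hcon
  obtain ⟨q, hq⟩ := Function.ne_iff.1 hpl
  have hF : ∀ a, (F a).IsHomogeneous (dg a) := fun a => by
    rw [hFG]
    exact (hG a).map _
  obtain ⟨dg', hdg'⟩ : ∃ dg' : {a // dg a ≤ 4} → ℕ, ∀ a, dg' a = dg a.1 := ⟨_, fun _ => rfl⟩
  obtain ⟨G', hG'⟩ : ∃ G' : {a // dg a ≤ 4} → MvPolynomial (Fin (n + 1)) k, ∀ a, G' a = G a.1 :=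
    ⟨_, fun _ => rfl⟩
  have hind' : AlgebraicIndependent k0 fun p : Cf n dg' => (G' p.1).coeff p.2.1 := by
    obtain ⟨g, hg⟩ : ∃ g : Cf n dg' → Cf n dg, ∀ p, g p = ⟨p.1.1, ⟨p.2.1, by
        rw [← hdg']; exact p.2.2⟩⟩ := ⟨_, fun _ => rfl⟩
    have h1 := hind.comp g fun p p' h => by
      rw [hg, hg] at h
      obtain ⟨⟨a, ha⟩, ⟨I, hI⟩⟩ := p
      obtain ⟨⟨a', ha'⟩, ⟨I', hI'⟩⟩ := p'
      have e1 : a = a' := congrArg Sigma.fst h
      subst e1
      have e2 := eq_of_heq (Sigma.mk.inj_iff.1 h).2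
      have e3 : I = I' := congrArg Subtype.val e2
      subst e3
      rfl
    have h2 : ((fun p : Cf n dg => (G p.1).coeff p.2.1) ∘ g) =
        fun p : Cf n dg' => (G' p.1).coeff p.2.1 := by
      funext p
      rw [Function.comp_apply, hg, hG']
    rwa [h2] at h1
  have hsum : ∑ a, dg' a + Fintype.card {a // dg a ≤ 4} = ∑ a with dg a ≤ 4, (dg a + 1) := by
    rw [Finset.sum_add_distrib, Finset.sum_const, smul_eq_mul, mul_one, ← Fintype.card_subtype]
    congr 1
    rw [Finset.sum_congr rfl fun a _ => hdg' a]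
    exact (Finset.sum_subtype _ (by simp) dg).symm
  refine no_onL (k0 := k0) (G := G') (dg := dg') (fun a => by rw [hG', hdg']; exact hG a.1) hind'
    (by omega) (ik := q) hq (x := x) (y := y) ?_
  intro a _ u v
  have hFa : map (algebraMap k L) (G' a) = F a.1 := by rw [hG', hFG]
  change eval (u • x + v • y) (map (algebraMap k L) (G' a)) = 0
  rw [hFa]
  by_cases hv : v = 0
  · rw [hv, zero_smul, add_zero, eval_smul_hom (hF a.1), hxC, mul_zero]
  · have h1 : u • x + v • y = v • fun l => y l + (u / v) * x l := by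
      funext l
      simp only [Pi.add_apply, Pi.smul_apply, smul_eq_mul]
      field_simp
      ring
    rw [h1, eval_smul_hom (hF a.1), ← lnp_eval, hcon a.1 a.2, Polynomial.eval_zero, mul_zero]

/-- The degrees of the curves in a generic complete intersection of dimension two, at a normalised
point, if there are no lines in the intersection of the hypersurfaces of degrees at most four; and
the bound for all degrees. -/
theorem main1 (hn : n = Fintype.card A + 2) (hdg : ∀ a, 2 ≤ dg a)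
    (hsum : n + 2 ≤ ∑ a, dg a)
    {G : A → MvPolynomial (Fin (n + 1)) k} (hG : ∀ a, (G a).IsHomogeneous (dg a))
    (hind : AlgebraicIndependent k0 fun p : Cf n dg => (G p.1).coeff p.2.1)
    {x : Fin (n + 1) → L} {a0 l0 : Fin (n + 1)} (ha0 : x a0 = 1)
    (hl0 : Transcendental k (x l0)) (hx : ∀ a, aeval x (G a) = 0) :
    (2 * n ≤ ∑ a with dg a ≤ 4, (dg a + 1) + 1 →
      (2 * ((∑ a, dg a : ℕ) : ℤ) - 2 * n - 3) * pht k x ≤ 2 * canDeg k L) ∧
    (((∑ a, dg a : ℕ) : ℤ) - n - 2) * pht k x ≤ canDeg k L := by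
  classical
  have hLz : CharZero L := charZero_of_injective_algebraMap (algebraMap k L).injective
  have hfd : ∀ a, Finite {J : Fin (n + 1) →₀ ℕ // J.degree = dg a - 1} := fun a =>
    finite_deg n (dg a - 1)
  have hpos : ∀ a, 0 < dg a := fun a => by have := hdg a; omega
  obtain ⟨F, hFG⟩ : ∃ F : Fam L n A, ∀ a, F a = map (algebraMap k L) (G a) := ⟨_, fun _ => rfl⟩
  have hFeq : (fun a => map (algebraMap k L) (G a)) = F := (funext hFG).symm
  have hF : ∀ a, (F a).IsHomogeneous (dg a) := fun a => by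
    rw [hFG]
    exact (hG a).map _
  have hxC : ∀ a, eval x (F a) = 0 := fun a => by
    rw [hFG, eval_map]
    exact hx a
  have hFk : ∀ a u, ∃ c : k, (F a).coeff u = algebraMap k L c := fun a u => by
    rw [hFG, coeff_map]
    exact ⟨_, rfl⟩
  obtain ⟨δ, hδ⟩ := exists_der (k := k) (K := L)
  have hδl := der_ne_zero hδ hl0
  obtain ⟨t, htd⟩ : ∃ t : Fin 1 → L, t = fun _ => x l0 := ⟨_, rfl⟩
  obtain ⟨E, hEd⟩ : ∃ E : Fin 1 → Derivation k L L, E = fun _ => (δ (x l0))⁻¹ • δ := ⟨_, rfl⟩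
  have hE1 : E 0 (x l0) = 1 := by
    rw [hEd]
    change (δ (x l0))⁻¹ * δ (x l0) = 1
    exact inv_mul_cancel₀ hδl
  have ht : IsTranscendenceBasis k t := by
    rw [htd]
    have h1 : IsTranscendenceBasis k (fun _ : Unit => x l0) := IsFF.basis hl0
    exact h1.comp_equiv (Equiv.ofUnique (Fin 1) Unit)
  have hEt : ∀ i j, E i (t j) = if i = j then 1 else 0 := by
    intro i j
    rw [Subsingleton.elim i 0, Subsingleton.elim j 0, if_pos rfl, htd]
    exact hE1
  obtain ⟨D, hD, hS, -⟩ := exists_duals_L ht G hind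
  rw [hFeq] at hD
  have hx0 : x ≠ 0 := by
    rintro rfl
    exact zero_ne_one ha0
  have hp0 : 0 ≤ pht k x := Pool.Agent.Y741.pht_nonneg hx0
  obtain ⟨S, hSd⟩ : ∃ S : ℤ, S = ((∑ a, dg a : ℕ) : ℤ) := ⟨_, rfl⟩
  have hS2 : (n : ℤ) + 2 ≤ S := by
    rw [hSd]
    exact_mod_cast hsum
  rw [← hSd]
  rcases part1 hpos hF hD hS ht hEt hFk hxC hn ha0 (by rw [hE1]; exact one_ne_zero) hdg hsum
    with h1 | ⟨y, c, hLC, hdeg⟩
  · rw [← hSd] at h1
    exact ⟨fun _ => h1, by nlinarith⟩
  rw [← hSd] at hdeg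
  have hH0 : 0 ≤ fht k (pl x y) := fht_nonneg hLC.pl0
  have hf0 : 0 ≤ fht k (cf dg c) := fht_nonneg (cf_ne hLC)
  refine ⟨fun hlow => ?_, by linarith⟩
  have hnv := exists_low (k0 := k0) hG hind hlow hFG hLC.pl0 hxC
  obtain ⟨f, hfd⟩ : ∃ f : A → Polynomial L, ∀ a, f a = lnp (F a) y x := ⟨_, fun _ => rfl⟩
  obtain ⟨g, hg⟩ : ∃ g : Polynomial L, g = ∏ a ∈ Finset.univ.filter fun a => f a ≠ 0, f a :=
    ⟨_, rfl⟩
  have hg0 : g ≠ 0 := by
    rw [hg]
    exact Finset.prod_ne_zero_iff.2 fun a ha => (Finset.mem_filter.1 ha).2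
  have hfin : FiniteDimensional L g.SplittingField := inferInstance
  have hFFE : IsFF k g.SplittingField := isFF_of_finite (F := L)
  have h2 := half_ext (E := g.SplittingField) hdg hG hind hFG hxC hLC
    (fun a ha => by
      rw [← hfd] at ha ⊢
      refine Polynomial.Splits.of_dvd (Polynomial.SplittingField.splits g)
        ((Polynomial.map_ne_zero_iff (algebraMap L g.SplittingField).injective).2 hg0)
        (Polynomial.map_dvd _ ?_)
      rw [hg]
      exact Finset.dvd_prod_of_mem f (Finset.mem_filter.2 ⟨Finset.mem_univ a, ha⟩)) hnv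
  linarith

end

end Pool.Agent.H435.CV
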