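import Pool.Agent.H435.CV.Line
import Pool.Agent.H435.VG.One

/-!
The linear form attached to a line, at a point of the line.
-/

set_option autoImplicit false

open MvPolynomial FF Pool.Agent.W603.LV Pool.Agent.W603.PV Pool.Agent.TH145.GH
open Pool.Agent.Y735 (lf lf_apply lf_hom eval_lf pm lf_pm sum_pm eval_pm pl po po_le exists_po fht
  fht_nonneg sum_two po_finite ge_lf ge_coeff_mul)
open Pool.Agent.W602.GT

namespace Pool.Agent.H435.CV

open Pool.Agent.H435.QL (GeM)
open Pool.Agent.H435.VG (fs_le fin_mul fin_add fin_sum ge_po le_po fun_eval cQ cQ_monomial cQ_apply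
  lin_hom)

theorem pow_hom {L : Type} [Field L] {n : ℕ} (i : Fin (n + 1)) (d : ℕ) :
    (X i ^ d : MvPolynomial (Fin (n + 1)) L).IsHomogeneous d := by
  have := (isHomogeneous_X L i).pow d
  rwa [one_mul] at this

/-- A linear form on the forms of degree `d - 1` on the line through `x` and `y`. -/
structure LineF {L : Type} [Field L] {n : ℕ} (d : ℕ)
    (x y : Fin (n + 1) → L) (c : (Fin (n + 1) →₀ ℕ) → L) : Prop where
  pl0 : pl x y ≠ 0
  ex : ∃ J, J.degree = d - 1 ∧ c J ≠ 0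
  van : ∀ m : Fin (n + 1) → L, ∑ l, m l * x l = 0 → ∑ l, m l * y l = 0 →
    ∀ S : MvPolynomial (Fin (n + 1)) L, S.IsHomogeneous (d - 2) → cQ c (lf m * S) = 0

section

variable {L : Type} [Field L] {n : ℕ} {d : ℕ} {x y : Fin (n + 1) → L}
  {c : (Fin (n + 1) →₀ ℕ) → L}

/-- A linear form that vanishes at a point of the line and is one at `x`. -/
theorem exists_aA (h : pl x y ≠ 0) (s : L) : ∃ A : Fin (n + 1) → L, ∑ l, A l * x l = 1 ∧
    ∑ l, A l * Pt x y s l = 0 := by
  obtain ⟨q, hq⟩ := Function.ne_iff.1 h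
  have hq' : pl x y q ≠ 0 := hq
  refine ⟨fun l => (-(pl x y q)⁻¹) * pm (Pt x y s) q.1 q.2 l, ?_, ?_⟩
  · have h1 : ∑ l, (-(pl x y q)⁻¹) * pm (Pt x y s) q.1 q.2 l * x l =
        (-(pl x y q)⁻¹) * ∑ l, pm (Pt x y s) q.1 q.2 l * x l := by
      rw [Finset.mul_sum]
      exact Finset.sum_congr rfl fun l _ => by ring
    rw [h1, sum_pm]
    have h2 : Pt x y s q.1 * x q.2 - Pt x y s q.2 * x q.1 = - pl x y q := by
      simp only [Pt, pl]
      ring
    rw [h2]
    field_simp
  · have h1 : ∑ l, (-(pl x y q)⁻¹) * pm (Pt x y s) q.1 q.2 l * Pt x y s l =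
        (-(pl x y q)⁻¹) * ∑ l, pm (Pt x y s) q.1 q.2 l * Pt x y s l := by
      rw [Finset.mul_sum]
      exact Finset.sum_congr rfl fun l _ => by ring
    rw [h1, sum_pm]
    ring

/-- The value of the linear form at a product with a linear form that vanishes at a point. -/
theorem LineF.red (h : LineF d x y c) (s : L) {A m : Fin (n + 1) → L}
    (hA1 : ∑ l, A l * x l = 1) (hA0 : ∑ l, A l * Pt x y s l = 0)
    (hm : ∑ l, m l * Pt x y s l = 0) {S : MvPolynomial (Fin (n + 1)) L}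
    (hS : S.IsHomogeneous (d - 2)) :
    cQ c (lf m * S) = (∑ l, m l * x l) * cQ c (lf A * S) := by
  obtain ⟨a, ha⟩ : ∃ a, a = ∑ l, m l * x l := ⟨_, rfl⟩
  have hy : ∀ z : Fin (n + 1) → L, ∑ l, z l * Pt x y s l = s * ∑ l, z l * x l +
      ∑ l, z l * y l := by
    intro z
    rw [Finset.mul_sum, ← Finset.sum_add_distrib]
    exact Finset.sum_congr rfl fun l _ => by simp only [Pt]; ring
  rw [hy, hA1] at hA0
  rw [hy, ← ha] at hm
  have h1 := h.van (m - a • A) (by
    have h2 : ∑ l, (m - a • A) l * x l = ∑ l, m l * x l - a * ∑ l, A l * x l := by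
      rw [Finset.mul_sum, ← Finset.sum_sub_distrib]
      exact Finset.sum_congr rfl fun l _ => by
        rw [Pi.sub_apply, Pi.smul_apply, smul_eq_mul]; ring
    rw [h2, hA1, ← ha]
    ring) (by
    have h2 : ∑ l, (m - a • A) l * y l = ∑ l, m l * y l - a * ∑ l, A l * y l := by
      rw [Finset.mul_sum, ← Finset.sum_sub_distrib]
      exact Finset.sum_congr rfl fun l _ => by
        rw [Pi.sub_apply, Pi.smul_apply, smul_eq_mul]; ring
    rw [h2]
    linear_combination hm - a * hA0) S hS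
  rw [map_sub, map_smul, sub_mul, smul_mul_assoc, map_sub, map_smul, smul_eq_mul] at h1
  rw [← ha]
  linear_combination h1

/-- The values at the products with powers. -/
theorem LineF.red_pow (h : LineF d x y c) (s : L) {A m : Fin (n + 1) → L}
    (hA1 : ∑ l, A l * x l = 1) (hA0 : ∑ l, A l * Pt x y s l = 0)
    (hm : ∑ l, m l * Pt x y s l = 0) (i : ℕ) {e : ℕ} {S : MvPolynomial (Fin (n + 1)) L}
    (hS : S.IsHomogeneous e) (he : i + e = d - 1) :
    cQ c (lf m ^ i * S) = (∑ l, m l * x l) ^ i * cQ c (lf A ^ i * S) := by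
  induction i generalizing e S with
  | zero => simp
  | succ i ih =>
    have h1 : (lf A * S).IsHomogeneous (1 + e) := (lf_hom A).mul hS
    have h2 := ih h1 (by omega)
    have h3 : (lf m ^ i * S).IsHomogeneous (d - 2) := by
      have h4 := ((lf_hom m).pow i).mul hS
      have h5 : 1 * i + e = d - 2 := by omega
      rwa [h5] at h4
    have h4 := h.red s hA1 hA0 hm h3
    have e1 : lf m ^ (i + 1) * S = lf m * (lf m ^ i * S) := by ring
    have e2 : lf A * (lf m ^ i * S) = lf m ^ i * (lf A * S) := by ring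
    have e3 : lf A ^ i * (lf A * S) = lf A ^ (i + 1) * S := by ring
    rw [e1, h4, e2, h2, e3]
    ring

/-- The order of the linear form along a point of the line. -/
theorem LineF.exists_i (h : LineF d x y c) (s : L) {A : Fin (n + 1) → L}
    (hA1 : ∑ l, A l * x l = 1) (hA0 : ∑ l, A l * Pt x y s l = 0) :
    ∃ (i : ℕ) (b : L), i ≤ d - 1 ∧ b ≠ 0 ∧ ∀ S : MvPolynomial (Fin (n + 1)) L,
      S.IsHomogeneous (d - 1 - i) → cQ c (lf A ^ i * S) = b * eval (Pt x y s) S := by
  classical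
  obtain ⟨I, hI⟩ : ∃ I : Finset ℕ, ∀ i, i ∈ I ↔ i ≤ d - 1 ∧
      ∃ S : MvPolynomial (Fin (n + 1)) L, S.IsHomogeneous (d - 1 - i) ∧
        cQ c (lf A ^ i * S) ≠ 0 := by
    refine ⟨(Finset.range (d + 1)).filter fun i => i ≤ d - 1 ∧
      ∃ S : MvPolynomial (Fin (n + 1)) L, S.IsHomogeneous (d - 1 - i) ∧
        cQ c (lf A ^ i * S) ≠ 0, fun i => ?_⟩
    rw [Finset.mem_filter, Finset.mem_range]
    constructor
    · exact fun h => h.2
    · intro h1
      exact ⟨by omega, h1⟩
  have h0 : (0 : ℕ) ∈ I := by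
    rw [hI]
    obtain ⟨J, hJ, hcJ⟩ := h.ex
    refine ⟨Nat.zero_le _, monomial J 1, by rw [Nat.sub_zero]; exact isHomogeneous_monomial 1 hJ,
      ?_⟩
    rw [pow_zero, one_mul, cQ_monomial]
    exact hcJ
  obtain ⟨i, hi⟩ : ∃ i, i = I.max' ⟨0, h0⟩ := ⟨_, rfl⟩
  have hiI : i ∈ I := by rw [hi]; exact I.max'_mem _
  have himax : ∀ j ∈ I, j ≤ i := fun j hj => by rw [hi]; exact I.le_max' j hj
  obtain ⟨hid, S0, hS0, hS0c⟩ := (hI i).1 hiI
  obtain ⟨b, hb⟩ := fun_eval (e := d - 1 - i) (cQ c ∘ₗ LinearMap.mulLeft L (lf A ^ i))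
    (Pt_ne h.pl0 s) fun m hm J hJ => by
      rw [LinearMap.comp_apply, LinearMap.mulLeft_apply]
      have h1 : (lf A ^ i * monomial J (1 : L)).IsHomogeneous (d - 2) := by
        have h4 := ((lf_hom A).pow i).mul (isHomogeneous_monomial (1 : L) (rfl : J.degree = _))
        have h5 : 1 * i + J.degree = d - 2 := by omega
        rwa [h5] at h4
      have h2 := h.red s hA1 hA0 hm h1
      have e1 : lf A ^ i * (lf m * monomial J 1) = lf m * (lf A ^ i * monomial J 1) := by ring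
      have e2 : lf A * (lf A ^ i * monomial J 1) = lf A ^ (i + 1) * monomial J 1 := by ring
      rw [e1, h2, e2]
      have h3 : cQ c (lf A ^ (i + 1) * monomial J 1) = 0 := by
        by_contra hne
        have h4 : i + 1 ∈ I := by
          rw [hI]
          refine ⟨by omega, monomial J 1, isHomogeneous_monomial 1 (by omega), hne⟩
        have := himax _ h4
        omega
      rw [h3, mul_zero]
  refine ⟨i, b, hid, ?_, fun S hS => hb S hS⟩
  rintro rfl
  apply hS0c
  have := hb S0 hS0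
  rw [zero_mul] at this
  exact this

end

section

variable {k L : Type} [Field k] [Field L] [Algebra k L] [IsAlgClosed k] [CharZero k] [IsFF k L]
  {n d : ℕ} {x y : Fin (n + 1) → L}
  {c : (Fin (n + 1) →₀ ℕ) → L}

/-- The lower bound for the height of the linear form. -/
theorem LineF.ht_ge (h : LineF d x y c) (s : L) {A : Fin (n + 1) → L}
    (hA1 : ∑ l, A l * x l = 1) (hA0 : ∑ l, A l * Pt x y s l = 0) {i : ℕ} {b : L}
    (hi : i ≤ d - 1) (hb : b ≠ 0)
    (hS : ∀ S : MvPolynomial (Fin (n + 1)) L, S.IsHomogeneous (d - 1 - i) →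
      cQ c (lf A ^ i * S) = b * eval (Pt x y s) S) :
    i * (fht k (pl x y) - pht k (Pt x y s)) + ((d - 1 - i : ℕ) : ℤ) * pht k (Pt x y s) ≤
      fht k (fun J : {J : Fin (n + 1) →₀ ℕ // J.degree = d - 1} => c J.1) := by
  classical
  have hfd := finite_deg n (d - 1)
  obtain ⟨g, hg⟩ : ∃ g : {J : Fin (n + 1) →₀ ℕ // J.degree = d - 1} → L, ∀ J, g J = c J.1 :=
    ⟨_, fun _ => rfl⟩
  have hgc : (fun J : {J : Fin (n + 1) →₀ ℕ // J.degree = d - 1} => c J.1) = g :=
    funext fun J => (hg J).symm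
  rw [hgc]
  have hg0 : g ≠ 0 := by
    obtain ⟨J0, hJ0, hcJ0⟩ := h.ex
    intro h0
    apply hcJ0
    have h1 := congrFun h0 ⟨J0, hJ0⟩
    rw [hg] at h1
    exact h1
  have hz := Pt_ne h.pl0 s
  obtain ⟨z, hzd⟩ : ∃ z, z = Pt x y s := ⟨_, rfl⟩
  rw [← hzd] at hz hS ⊢
  have f1 := po_finite (k := k) hg0
  have f2 := po_finite (k := k) h.pl0
  have f3 := po_finite (k := k) hz
  have h1 := fs_le (k := k) (A := fun P => (po P g + (-i : ℤ) * po P (pl x y)) +
    ((i : ℤ) - ((d - 1 - i : ℕ) : ℤ)) * po P z) (fin_add (fin_add f1 (fin_mul f2 _))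
      (fin_mul f3 _)) (g := b) fun P => by
    obtain ⟨q, hq, hqP⟩ := exists_po P h.pl0
    obtain ⟨a, ha, haP⟩ := exists_po P hz
    obtain ⟨m, hm⟩ : ∃ m, m = pm z q.1 q.2 := ⟨_, rfl⟩
    have hmz : ∑ l, m l * z l = 0 := by
      rw [hm, sum_pm]
      ring
    have hmx : ∑ l, m l * x l = - pl x y q := by
      rw [hm, sum_pm, ← pl_Pt s, ← hzd]
      simp only [pl]
      ring
    have hXh : (X a ^ (d - 1 - i) : MvPolynomial (Fin (n + 1)) L).IsHomogeneous (d - 1 - i) :=
      pow_hom a _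
    have h2 := h.red_pow s hA1 hA0 (m := m) (by rw [← hzd]; exact hmz) i hXh (by omega)
    rw [hS _ hXh, hmx, map_pow, eval_X] at h2
    -- the coefficients
    have h3 : GeM P (i * po P z + ((d - 1 - i : ℕ) : ℤ) * 0)
        (lf m ^ i * X a ^ (d - 1 - i) : MvPolynomial (Fin (n + 1)) L) := by
      refine GeM.mul (GeM.pow (ge_lf P fun l => ?_) i) ((GeM.X a).pow _)
      rw [hm]
      unfold pm
      refine Ge.sub ?_ ?_
      · split_ifs
        · exact ge_po P z _
        · exact Ge.zero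
      · split_ifs
        · exact ge_po P z _
        · exact Ge.zero
    rw [mul_zero, add_zero] at h3
    have h4 : Ge P (i * po P z + po P g) (cQ c (lf m ^ i * X a ^ (d - 1 - i))) := by
      rw [cQ_apply]
      refine Ge.sum _ _ fun J hJ => ?_
      have h5 : (lf m ^ i * X a ^ (d - 1 - i) : MvPolynomial (Fin (n + 1)) L).IsHomogeneous
          (d - 1) := by
        have h6 := ((lf_hom m).pow i).mul hXh
        have h7 : 1 * i + (d - 1 - i) = d - 1 := by omega
        rwa [h7] at h6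
      have h6 := ge_po P g ⟨J, deg_of_mem h5 hJ⟩
      rw [hg] at h6
      exact (h3 J).mul h6
    rw [h2] at h4
    have hn1 : (- pl x y q) ^ i ≠ 0 := pow_ne_zero _ (neg_ne_zero.2 hq)
    have hn2 : z a ^ (d - 1 - i) ≠ 0 := pow_ne_zero _ ha
    have h5 := h4.resolve_left (mul_ne_zero hn1 (mul_ne_zero hb hn2))
    rw [P.ord_mul hn1 (mul_ne_zero hb hn2), P.ord_mul hb hn2, P.ord_pow, P.ord_pow, P.ord_neg,
      hqP, haP] at h5
    linarith
  rw [finsum_add_distrib (fin_add f1 (fin_mul f2 _)) (fin_mul f3 _),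
    finsum_add_distrib f1 (fin_mul f2 _), ← mul_finsum _ (-i : ℤ), ← mul_finsum] at h1
  rw [← Pool.Agent.Y735.fht_fin]
  unfold fht
  linarith

end

end Pool.Agent.H435.CV
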