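import Pool.Agent.H435.CT.Deg
import Pool.Agent.H435.CV.Fun

/-!
The volume along a curve in a generic complete intersection of dimension two.
-/

set_option autoImplicit false
set_option linter.unusedSectionVars false
set_option linter.unusedSimpArgs false

open MvPolynomial FF Pool.Agent.W603.LV Pool.Agent.W603.PV Pool.Agent.TH145.GH
open Pool.Agent.Y735 (lf lf_apply lf_hom eval_lf pm lf_pm sum_pm eval_pm tm pl vol vol_apply po
  po_le exists_po fht fht_fin fht_nonneg sum_two po_finite)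
open Pool.Agent.W602.GT Pool.Agent.TH145.GF

namespace Pool.Agent.H435.CV

open Pool.Agent.Y741
open Pool.Agent.H435.VG (ge_po le_po fun_eval cQ cQ_monomial cQ_apply lin_hom)
open Pool.Agent.H435.CT (T3)

section alg

variable {K : Type} [Field K] {n : ℕ} {A : Type} [DecidableEq A] [Fintype A]

/-- The data of the rows with one triple. -/
def ru (P : A → MvPolynomial (Fin (n + 1)) ℕ) (τ : T3 n) :
    RN n A (Fin 0) (Fin 0) (Fin 1) (Fin 0) :=
  ⟨fun e => e.elim0, fun e => e.elim0, fun e => e.elim0, fun e => e.elim0, fun _ => P,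
    fun _ => τ, fun e => e.elim0⟩

/-- The indices of the rows. -/
abbrev Rw (A : Type) [Fintype A] : Type :=
  Ri (Finset.univ : Finset A) (Fin 1 ⊕ Fin 0) (Fin 0) (Fin 1) (Fin 0)

variable (F : Fam K n A) (dg : A → ℕ) (D : A → (Fin (n + 1) →₀ ℕ) → Derivation ℤ K K)
  (E : Fin 1 → Derivation ℤ K K) (x : Fin (n + 1) → K)

/-- The rows with a given last vector. -/
noncomputable def Rg (a0 : Fin (n + 1)) (w : Fin (n + 1) → K) : Rw A → Fin (n + 1) → K
  | Sum.inl c => vA D x (Pi.single c.1 (X a0 ^ dg c.1))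
  | Sum.inr none => x
  | Sum.inr (some (Sum.inl (Sum.inl ξ))) => fun l => E ξ (x l)
  | Sum.inr (some (Sum.inl (Sum.inr e))) => e.elim0
  | Sum.inr (some (Sum.inr (Sum.inl (Sum.inl e)))) => e.elim0
  | Sum.inr (some (Sum.inr (Sum.inl (Sum.inr e)))) => e.elim0
  | Sum.inr (some (Sum.inr (Sum.inr (Sum.inl _)))) => w
  | Sum.inr (some (Sum.inr (Sum.inr (Sum.inr e)))) => e.elim0

/-- The index of the last vector. -/
def p1 : Rw A := Sum.inr (some (Sum.inr (Sum.inr (Sum.inl 0))))

open scoped Classical in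
theorem Rg_upd (a0 : Fin (n + 1)) (v w : Fin (n + 1) → K) :
    Function.update (Rg dg D E x a0 v) p1 w = Rg dg D E x a0 w := by
  funext κ
  rcases κ with c | _ | (ξ | e) | (e | e) | b | e
  · exact Function.update_of_ne (by simp [p1]) _ _
  · exact Function.update_of_ne (by simp [p1]) _ _
  · exact Function.update_of_ne (by simp [p1]) _ _
  · exact e.elim0
  · exact e.elim0
  · exact e.elim0
  · rw [Subsingleton.elim b 0]
    exact Function.update_self _ _ _
  · exact e.elim0

open scoped Classical in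
/-- The volume as a linear form in the last vector. -/
noncomputable def Lm (V : Rw A ≃ Fin (n + 1)) (a0 : Fin (n + 1)) :
    (Fin (n + 1) → K) →ₗ[K] K where
  toFun w := vol V (Rg dg D E x a0 w)
  map_add' v w := by
    rw [← Rg_upd dg D E x a0 0 (v + w), ← Rg_upd dg D E x a0 0 v, ← Rg_upd dg D E x a0 0 w,
      AlternatingMap.map_update_add]
  map_smul' c w := by
    rw [← Rg_upd dg D E x a0 0 (c • w), ← Rg_upd dg D E x a0 0 w,
      AlternatingMap.map_update_smul]
    rfl

theorem Lm_apply (V : Rw A ≃ Fin (n + 1)) (a0 : Fin (n + 1)) (w : Fin (n + 1) → K) :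
    Lm dg D E x V a0 w = vol V (Rg dg D E x a0 w) := rfl

/-- The volume of the vector field of a form. -/
noncomputable def Tf (V : Rw A ≃ Fin (n + 1)) (a0 : Fin (n + 1)) (a : A) :
    MvPolynomial (Fin (n + 1)) K →ₗ[K] K :=
  Lm dg D E x V a0 ∘ₗ vA D x ∘ₗ
    (LinearMap.single K (fun _ : A => MvPolynomial (Fin (n + 1)) K) a)

theorem Tf_apply (V : Rw A ≃ Fin (n + 1)) (a0 : Fin (n + 1)) (a : A)
    (G : MvPolynomial (Fin (n + 1)) K) :
    Tf dg D E x V a0 a G = Lm dg D E x V a0 (vA D x (Pi.single a G)) := rfl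

theorem Tf_sum (V : Rw A ≃ Fin (n + 1)) (a0 : Fin (n + 1)) (G : Fam K n A) :
    Lm dg D E x V a0 (vA D x G) = ∑ a, Tf dg D E x V a0 a (G a) := by
  have h1 : G = ∑ a, (Pi.single a (G a) : Fam K n A) := (Finset.univ_sum_single G).symm
  conv_lhs => rw [h1]
  rw [map_sum, map_sum]
  rfl

/-- The point over a monomial. -/
noncomputable def Yx (V : Rw A ≃ Fin (n + 1)) (a0 : Fin (n + 1)) (a : A)
    (J : Fin (n + 1) →₀ ℕ) (b : Fin (n + 1)) : K :=
  Tf dg D E x V a0 a (lf (pm x a0 b) * monomial J 1)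

theorem Yx_spec (V : Rw A ≃ Fin (n + 1)) {a0 : Fin (n + 1)} (ha0 : x a0 = 1) (a : A)
    (J : Fin (n + 1) →₀ ℕ) {m : Fin (n + 1) → K} (hm : ∑ l, m l * x l = 0) :
    Tf dg D E x V a0 a (lf m * monomial J 1) = ∑ l, m l * Yx dg D E x V a0 a J l := by
  have h1 : m = ∑ b, m b • pm x a0 b := by
    funext l
    rw [Finset.sum_apply]
    simp only [Pi.smul_apply, smul_eq_mul, pm, mul_sub, mul_ite, mul_zero]
    rw [Finset.sum_sub_distrib, Finset.sum_ite_eq Finset.univ l, if_pos (Finset.mem_univ l)]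
    by_cases hl : l = a0
    · simp only [if_pos hl]
      rw [hm, sub_zero, ha0, mul_one]
    · simp only [if_neg hl]
      rw [Finset.sum_const_zero, sub_zero, ha0, mul_one]
  have h2 : lf m = ∑ b, m b • lf (pm x a0 b) := by
    conv_lhs => rw [h1]
    rw [map_sum]
    exact Finset.sum_congr rfl fun b _ => map_smul _ _ _
  rw [h2, Finset.sum_mul, map_sum]
  refine Finset.sum_congr rfl fun b _ => ?_
  rw [smul_mul_assoc, map_smul, smul_eq_mul]
  rfl

theorem Tf_pm (V : Rw A ≃ Fin (n + 1)) {a0 : Fin (n + 1)} (ha0 : x a0 = 1) (a : A)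
    (J : Fin (n + 1) →₀ ℕ) (b c : Fin (n + 1)) :
    Tf dg D E x V a0 a (lf (pm x b c) * monomial J 1) = pl x (Yx dg D E x V a0 a J) (b, c) := by
  rw [Yx_spec dg D E x V ha0 a J (by rw [← eval_lf]; exact eval_pm x b c), sum_pm]
  rfl

theorem Yx_a0 (V : Rw A ≃ Fin (n + 1)) (a0 : Fin (n + 1)) (a : A) (J : Fin (n + 1) →₀ ℕ) :
    Yx dg D E x V a0 a J a0 = 0 := by
  unfold Yx
  have h1 : pm x a0 a0 = 0 := by
    funext l
    simp [pm]
  rw [h1, map_zero, zero_mul, map_zero]

theorem rowE_eq (y : Fin (n + 1) → K) (ik : Fin (n + 1) × Fin (n + 1))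
    (P : A → MvPolynomial (Fin (n + 1)) ℕ) (τ : T3 n) (a0 : Fin (n + 1)) :
    rowE F dg D E Finset.univ x y a0 ik ((ru P τ).rd K) =
      Rg dg D E x a0 (vq D x (nf K P) (tm (pl x y) τ)) := by
  funext κ
  rcases κ with c | _ | (ξ | e) | (e | e) | b | e
  · rfl
  · rfl
  · rfl
  · exact e.elim0
  · exact e.elim0
  · exact e.elim0
  · rfl
  · exact e.elim0

variable {F dg D E x} (hF : ∀ a, (F a).IsHomogeneous (dg a)) (hD : TH145.GC.Dual F dg D)
  (hxC : ∀ a, eval x (F a) = 0) (hn : n = Fintype.card A + 2)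
  (hEF : ∀ ξ a u, E ξ ((F a).coeff u) = 0)

include hF hD hxC hn hEF

theorem TC_le3 (V : Rw A ≃ Fin (n + 1)) {a0 : Fin (n + 1)} (ha0 : x a0 = 1)
    {w : Fin (n + 1) → K} (hw : w ∈ TC F Finset.univ x) (hL : Lm dg D E x V a0 w ≠ 0) :
    TC F Finset.univ x ≤
      Submodule.span K ({x, (fun l => E 0 (x l)), w} : Set (Fin (n + 1) → K)) := by
  classical
  have hx0 : x ≠ 0 := by
    rintro rfl
    exact zero_ne_one ha0
  have hxC' : ∀ c ∈ (Finset.univ : Finset A), eval x (F c) = 0 := fun c _ => hxC c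
  rw [Lm_apply] at hL
  have h2 : LinearIndependent K (Rg dg D E x a0 w) := by
    rw [vol_apply, ← isUnit_iff_ne_zero, ← Matrix.isUnit_iff_isUnit_det] at hL
    exact (linearIndependent_equiv V.symm).1 (Matrix.linearIndependent_rows_iff_isUnit.2 hL)
  have h3 : LinearIndependent K (fun κ : Option ((Fin 1 ⊕ Fin 0) ⊕ (Fin 0 ⊕ Fin 0) ⊕
      (Fin 1 ⊕ Fin 0)) => Rg dg D E x a0 w (Sum.inr κ)) :=
    h2.comp (Sum.inr : Option ((Fin 1 ⊕ Fin 0) ⊕ (Fin 0 ⊕ Fin 0) ⊕
      (Fin 1 ⊕ Fin 0)) → Rw A) Sum.inr_injective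
  have hfr := TC_finrank hF hD hxC' hx0
  rw [Finset.card_univ] at hfr
  have hmem : ∀ κ : Option ((Fin 1 ⊕ Fin 0) ⊕ (Fin 0 ⊕ Fin 0) ⊕ (Fin 1 ⊕ Fin 0)),
      Rg dg D E x a0 w (Sum.inr κ) ∈ TC F Finset.univ x := by
    intro κ
    rcases κ with _ | (ξ | e) | (e | e) | b | e
    · exact x_mem_TC hF hxC'
    · exact Ve_le hEF hxC' (Submodule.subset_span ⟨ξ, rfl⟩)
    · exact e.elim0
    · exact e.elim0
    · exact e.elim0
    · exact hw
    · exact e.elim0
  have h5 : Submodule.span K (Set.range fun κ : Option ((Fin 1 ⊕ Fin 0) ⊕ (Fin 0 ⊕ Fin 0) ⊕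
      (Fin 1 ⊕ Fin 0)) => Rg dg D E x a0 w (Sum.inr κ)) = TC F Finset.univ x := by
    refine Submodule.eq_of_le_of_finrank_eq ?_ ?_
    · rw [Submodule.span_le]
      rintro _ ⟨κ, rfl⟩
      exact hmem κ
    · rw [finrank_span_eq_card h3]
      simp only [Fintype.card_option, Fintype.card_sum, Fintype.card_fin]
      omega
  rw [← h5, Submodule.span_le]
  rintro _ ⟨κ, rfl⟩
  rcases κ with _ | (ξ | e) | (e | e) | b | e
  · exact Submodule.subset_span (Set.mem_insert _ _)
  · rw [Subsingleton.elim ξ 0]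
    exact Submodule.subset_span (Set.mem_insert_of_mem _ (Set.mem_insert _ _))
  · exact e.elim0
  · exact e.elim0
  · exact e.elim0
  · exact Submodule.subset_span (Set.mem_insert_of_mem _ (Set.mem_insert_of_mem _
      (Set.mem_singleton _)))
  · exact e.elim0

theorem Lm_ne (V : Rw A ≃ Fin (n + 1)) {a0 : Fin (n + 1)} (ha0 : x a0 = 1)
    {w : Fin (n + 1) → K} (hsp : TC F Finset.univ x ≤
      Submodule.span K ({x, (fun l => E 0 (x l)), w} : Set (Fin (n + 1) → K))) :
    Lm dg D E x V a0 w ≠ 0 := by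
  classical
  have hxC' : ∀ c ∈ (Finset.univ : Finset A), eval x (F c) = 0 := fun c _ => hxC c
  obtain ⟨R, hR⟩ : ∃ R, R = Rg dg D E x a0 w := ⟨_, rfl⟩
  have h2 : Submodule.span K ({x, (fun l => E 0 (x l)), w} : Set (Fin (n + 1) → K)) ≤
      Submodule.span K (Set.range R) := by
    rw [Submodule.span_le]
    intro z hz
    rcases hz with rfl | rfl | hz
    · exact Submodule.subset_span ⟨Sum.inr none, by rw [hR]; rfl⟩
    · exact Submodule.subset_span ⟨Sum.inr (some (Sum.inl (Sum.inl 0))), by rw [hR]; rfl⟩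
    · rw [Set.mem_singleton_iff] at hz
      rw [hz]
      exact Submodule.subset_span ⟨p1, by rw [hR]; rfl⟩
  have htop : Submodule.span K (Set.range R) = ⊤ := by
    rw [eq_top_iff]
    intro z _
    have h1 := exists_dec hF hD hxC' (i0 := a0) (by rw [ha0]; exact one_ne_zero) z
    have h3 := h2 (hsp h1)
    have h4 : ∑ c : (Finset.univ : Finset A), (-(dF (F c) x z / x a0 ^ dg c.1)) •
        vA D x (Pi.single c.1 (X a0 ^ dg c.1)) ∈ Submodule.span K (Set.range R) :=
      sum_mem fun c _ => Submodule.smul_mem _ _ (Submodule.subset_span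
        ⟨Sum.inl c, by rw [hR]; rfl⟩)
    have h5 := add_mem h3 h4
    rwa [sub_add_cancel] at h5
  have hEc : Fintype.card (Rw A) = Fintype.card (Fin (n + 1)) := by
    simp only [Fintype.card_option, Fintype.card_sum, Fintype.card_fin, Fintype.card_coe,
      Finset.card_univ]
    omega
  have hind : LinearIndependent K R :=
    linearIndependent_of_top_le_span_of_card_eq_finrank htop.ge (by
      rw [hEc, Fintype.card_fin, Module.finrank_fin_fun])
  rw [Lm_apply, ← hR, vol_apply]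
  have h4 := Matrix.linearIndependent_rows_iff_isUnit
    (A := Matrix.of fun i => R (V.symm i))
  rw [Matrix.isUnit_iff_isUnit_det, isUnit_iff_ne_zero] at h4
  refine h4.1 ?_
  exact (linearIndependent_equiv V.symm).2 hind

/-- There is a tangent vector of positive volume. -/
theorem exists_tan (V : Rw A ≃ Fin (n + 1)) {a0 : Fin (n + 1)} (ha0 : x a0 = 1)
    (hind : LinearIndependent K ![x, fun l => E 0 (x l)]) :
    ∃ w ∈ TC F Finset.univ x, Lm dg D E x V a0 w ≠ 0 := by
  classical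
  have hx0 : x ≠ 0 := by
    rintro rfl
    exact zero_ne_one ha0
  have hxC' : ∀ c ∈ (Finset.univ : Finset A), eval x (F c) = 0 := fun c _ => hxC c
  have hfr := TC_finrank hF hD hxC' hx0
  rw [Finset.card_univ] at hfr
  obtain ⟨w, hw, hws⟩ : ∃ w ∈ TC F Finset.univ x,
      w ∉ Submodule.span K (Set.range ![x, fun l => E 0 (x l)]) := by
    by_contra hcon
    push Not at hcon
    have h1 : TC F Finset.univ x ≤ Submodule.span K (Set.range ![x, fun l => E 0 (x l)]) := hcon
    have h2 := Submodule.finrank_mono h1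
    rw [finrank_span_eq_card hind, Fintype.card_fin] at h2
    omega
  refine ⟨w, hw, Lm_ne hF hD hxC hn hEF V ha0 ?_⟩
  have h3 : LinearIndependent K
      (Fin.cons w ![x, fun l => E 0 (x l)] : Fin 3 → Fin (n + 1) → K) :=
    linearIndependent_finCons.2 ⟨hind, hws⟩
  have h4 : Submodule.span K (Set.range (Fin.cons w ![x, fun l => E 0 (x l)] :
      Fin 3 → Fin (n + 1) → K)) = TC F Finset.univ x := by
    refine Submodule.eq_of_le_of_finrank_eq ?_ ?_
    · rw [Submodule.span_le]
      rintro _ ⟨i, rfl⟩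
      fin_cases i
      · exact hw
      · exact x_mem_TC hF hxC'
      · exact Ve_le hEF hxC' (Submodule.subset_span ⟨0, rfl⟩)
    · rw [finrank_span_eq_card h3, Fintype.card_fin]
      omega
  rw [← h4, Submodule.span_le]
  rintro _ ⟨i, rfl⟩
  fin_cases i
  · exact Submodule.subset_span (Set.mem_insert_of_mem _ (Set.mem_insert_of_mem _
      (Set.mem_singleton _)))
  · exact Submodule.subset_span (Set.mem_insert _ _)
  · exact Submodule.subset_span (Set.mem_insert_of_mem _ (Set.mem_insert _ _))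

omit hn hEF in
/-- If the vectors of the linear group have volume zero, some volume is not zero. -/
theorem exists_Y (hpos : ∀ a, 0 < dg a) (V : Rw A ≃ Fin (n + 1)) {a0 : Fin (n + 1)}
    (ha0 : x a0 = 1) {w : Fin (n + 1) → K} (hw : w ∈ TC F Finset.univ x)
    (hL : Lm dg D E x V a0 w ≠ 0) (hww : ∀ v, Lm dg D E x V a0 (ww F D x v) = 0) :
    ∃ a J b, J.degree = dg a - 1 ∧ Yx dg D E x V a0 a J b ≠ 0 := by
  classical
  by_contra hcon
  push Not at hcon
  have hx0 : x ≠ 0 := by
    rintro rfl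
    exact zero_ne_one ha0
  have hb := fun a => fun_eval (e := dg a) (Tf dg D E x V a0 a) hx0 fun m hm J hJ => by
    rw [Yx_spec dg D E x V ha0 a J hm]
    exact Finset.sum_eq_zero fun l _ => by rw [hcon a J l (by omega), mul_zero]
  choose b hb using hb
  apply hL
  obtain ⟨G, hG⟩ : ∃ G : Fam K n A, G = ∑ p, w p • gf F (Sum.inl (p, a0)) := ⟨_, rfl⟩
  have hGa : ∀ a, G a = ∑ p, w p • (X a0 * pderiv p (F a)) := fun a => by
    rw [hG, Finset.sum_apply]
    rfl
  have hGh : ∀ a, (G a).IsHomogeneous (dg a) := fun a => by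
    rw [hGa]
    refine IsHomogeneous.sum _ _ _ fun p _ => ?_
    rw [smul_eq_C_mul]
    have := (isHomogeneous_C (Fin (n + 1)) (w p)).mul (gf_hom hpos hF (Sum.inl (p, a0)) a)
    rwa [zero_add] at this
  have h1 : w = ∑ p, w p • ww F D x (Sum.inl (p, a0)) - vA D x G := by
    rw [hG, map_sum, ← Finset.sum_sub_distrib]
    have h2 : ∀ p, w p • ww F D x (Sum.inl (p, a0)) -
        vA D x (w p • gf F (Sum.inl (p, a0))) =
        w p • (Pi.single p 1 : Fin (n + 1) → K) := by
      intro p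
      simp only [ww]
      rw [map_smul, smul_add, add_sub_cancel_right, ha0, one_smul]
    rw [Finset.sum_congr rfl fun p _ => h2 p]
    funext l
    rw [Finset.sum_apply, Finset.sum_eq_single l]
    · rw [Pi.smul_apply, smul_eq_mul, Pi.single_eq_same, mul_one]
    · intro p _ hp
      rw [Pi.smul_apply, Pi.single_eq_of_ne hp.symm, smul_zero]
    · intro h; exact absurd (Finset.mem_univ _) h
  have h3 := congrArg (Lm dg D E x V a0) h1
  rw [map_sub, map_sum, Finset.sum_eq_zero fun p _ => by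
    rw [map_smul, hww, smul_zero], zero_sub] at h3
  rw [h3, Tf_sum, Finset.sum_eq_zero, neg_zero]
  intro a _
  rw [hb a (G a) (hGh a), hGa, map_sum]
  have h6 : ∑ p, eval x (w p • (X a0 * pderiv p (F a))) = dF (F a) x w := by
    unfold dF
    refine Finset.sum_congr rfl fun p _ => ?_
    rw [smul_eval, map_mul, eval_X, ha0]
    ring
  rw [h6, hw a (Finset.mem_univ a), mul_zero]

end alg

end Pool.Agent.H435.CV
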