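import Pool.Agent.H435.CV.Two

/-!
The linear form attached to a line, at a point of the variety on the line.
-/

set_option autoImplicit false
set_option linter.unusedSectionVars false

open MvPolynomial FF Pool.Agent.W603.LV Pool.Agent.W603.PV Pool.Agent.TH145.GH
open Pool.Agent.Y735 (lf lf_apply lf_hom eval_lf pm lf_pm sum_pm eval_pm pl po po_le exists_po fht
  fht_nonneg sum_two po_finite)
open Pool.Agent.W602.GT Pool.Agent.TH145.GF

namespace Pool.Agent.H435.CV

open Pool.Agent.Y741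
open Pool.Agent.H435.VG (ge_po le_po fun_eval cQ cQ_monomial cQ_apply lin_hom)

section

variable {L : Type} [Field L] {n : ℕ} {A : Type} [DecidableEq A] [Fintype A]
  {F : Fam L n A} {dg : A → ℕ} {D : A → (Fin (n + 1) →₀ ℕ) → Derivation ℤ L L}
  {x y : Fin (n + 1) → L} {c : A → (Fin (n + 1) →₀ ℕ) → L}

theorem cQ_zero {c : (Fin (n + 1) →₀ ℕ) → L} {e : ℕ}
    (h : ∀ J : Fin (n + 1) →₀ ℕ, J.degree = e → c J = 0) {R : MvPolynomial (Fin (n + 1)) L}
    (hR : R.IsHomogeneous e) : cQ c R = 0 := by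
  rw [cQ_apply]
  exact Finset.sum_eq_zero fun J hJ => by rw [h J (deg_of_mem hR hJ), mul_zero]

theorem LineC.lineF (h : LineC F dg x y c) {a : A}
    (hex : ∃ J, J.degree = dg a - 1 ∧ c a J ≠ 0) : LineF (dg a) x y (c a) :=
  ⟨h.pl0, hex, h.van a⟩

/-- The value at a product with a linear form that vanishes at a point. -/
theorem LineC.red (h : LineC F dg x y c) (hdg : ∀ a, 2 ≤ dg a) (s : L) {B m : Fin (n + 1) → L}
    (hB1 : ∑ l, B l * x l = 1) (hB0 : ∑ l, B l * Pt x y s l = 0)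
    (hm : ∑ l, m l * Pt x y s l = 0) (a : A) {S : MvPolynomial (Fin (n + 1)) L}
    (hS : S.IsHomogeneous (dg a - 2)) :
    cQ (c a) (lf m * S) = (∑ l, m l * x l) * cQ (c a) (lf B * S) := by
  by_cases hex : ∃ J, J.degree = dg a - 1 ∧ c a J ≠ 0
  · exact (h.lineF hex).red s hB1 hB0 hm hS
  push Not at hex
  have h1 : ∀ m : Fin (n + 1) → L, (lf m * S).IsHomogeneous (dg a - 1) := fun m => by
    have h2 := (lf_hom m).mul hS
    have h3 : 1 + (dg a - 2) = dg a - 1 := by have := hdg a; omega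
    rwa [h3] at h2
  rw [cQ_zero hex (h1 m), cQ_zero hex (h1 B), mul_zero]

/-- At a point of the line, the order of some component is positive, or all components are
values at the point, and not all forms with nonzero component vanish at the point. -/
theorem LineC.exists_a (h : LineC F dg x y c) (hF : ∀ a, (F a).IsHomogeneous (dg a))
    (hD : TH145.GC.Dual F dg D) (hdg : ∀ a, 2 ≤ dg a) (s : L) {B : Fin (n + 1) → L}
    (hB1 : ∑ l, B l * x l = 1) (hB0 : ∑ l, B l * Pt x y s l = 0) :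
    (∃ a, ∃ S : MvPolynomial (Fin (n + 1)) L, S.IsHomogeneous (dg a - 2) ∧
      cQ (c a) (lf B * S) ≠ 0) ∨
    ∃ a b, b ≠ 0 ∧ eval (Pt x y s) (F a) ≠ 0 ∧ ∀ P : MvPolynomial (Fin (n + 1)) L,
      P.IsHomogeneous (dg a - 1) → cQ (c a) P = b * eval (Pt x y s) P := by
  classical
  by_cases hcon : ∃ a, ∃ S : MvPolynomial (Fin (n + 1)) L, S.IsHomogeneous (dg a - 2) ∧
      cQ (c a) (lf B * S) ≠ 0
  · exact Or.inl hcon
  right
  push Not at hcon
  have hz0 := Pt_ne h.pl0 s
  have hb := fun a => fun_eval (e := dg a - 1) (cQ (c a)) hz0 fun m hm J hJ => by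
    have hJh : (monomial J (1 : L)).IsHomogeneous (dg a - 2) :=
      isHomogeneous_monomial 1 (by omega)
    rw [h.red hdg s hB1 hB0 hm a hJh, hcon a _ hJh, mul_zero]
  choose b hb using hb
  obtain ⟨a', J, hJ, hcJ⟩ := h.ex
  have hba : b a' ≠ 0 := by
    intro h0
    apply hcJ
    have h1 := hb a' (monomial J 1) (isHomogeneous_monomial 1 hJ)
    rw [h0, zero_mul, cQ_monomial] at h1
    exact h1
  by_contra hcon2
  push Not at hcon2
  have hz : ∀ a, b a ≠ 0 → eval (Pt x y s) (F a) = 0 := by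
    intro a ha
    by_contra hne
    obtain ⟨P, hP, hPne⟩ := hcon2 a (b a) ha hne
    exact hPne (hb a P hP)
  have hjac : ∀ p, ∑ a, b a * eval (Pt x y s) (pderiv p (F a)) = 0 := by
    intro p
    rw [← h.jac p]
    exact Finset.sum_congr rfl fun a _ => (hb a _ ((hF a).pderiv (i := p))).symm
  obtain ⟨q, hq⟩ := Function.ne_iff.1 hz0
  have hq' : Pt x y s q ≠ 0 := hq
  obtain ⟨v, hv⟩ : ∃ v, v = vA D (Pt x y s) (Pi.single a' (X q ^ dg a')) := ⟨_, rfl⟩
  have h1 : ∑ a, b a * dF (F a) (Pt x y s) v = 0 := by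
    unfold dF
    simp only [Finset.mul_sum]
    rw [Finset.sum_comm]
    refine Finset.sum_eq_zero fun p _ => ?_
    have h2 : ∑ a, b a * (eval (Pt x y s) (pderiv p (F a)) * v p) =
        (∑ a, b a * eval (Pt x y s) (pderiv p (F a))) * v p := by
      rw [Finset.sum_mul]
      exact Finset.sum_congr rfl fun a _ => by ring
    rw [h2, hjac, zero_mul]
  have h2 : ∀ a, b a * dF (F a) (Pt x y s) v =
      b a * -if a = a' then Pt x y s q ^ dg a' else 0 := by
    intro a
    by_cases ha : b a = 0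
    · rw [ha, zero_mul, zero_mul]
    rw [hv, dF_vA hF hD (Pt x y s) (fun b => single_hom (isHomogeneous_X_pow q (dg a')) b) a,
      hz a ha, map_zero, zero_sub]
    by_cases haa : a = a'
    · subst haa
      rw [Pi.single_eq_same, if_pos rfl, map_pow, eval_X]
    · rw [Pi.single_eq_of_ne haa, if_neg haa, map_zero]
  rw [Finset.sum_congr rfl fun a _ => h2 a, Finset.sum_eq_single a'] at h1
  · rw [if_pos rfl, mul_neg, neg_eq_zero] at h1
    exact (mul_ne_zero hba (pow_ne_zero _ hq')) h1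
  · intro a _ ha
    rw [if_neg ha, neg_zero, mul_zero]
  · intro h; exact absurd (Finset.mem_univ _) h

end

section

variable {k L : Type} [Field k] [Field L] [Algebra k L] [IsAlgClosed k] [CharZero k] [IsFF k L]
  {n : ℕ} {A : Type} [DecidableEq A] [Fintype A]
  {F : Fam L n A} {dg : A → ℕ} {D : A → (Fin (n + 1) →₀ ℕ) → Derivation ℤ L L}
  {x y : Fin (n + 1) → L} {c : A → (Fin (n + 1) →₀ ℕ) → L}

theorem cf_ne (h : LineC F dg x y c) : cf dg c ≠ 0 := by
  obtain ⟨a, J, hJ, hc⟩ := h.ex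
  intro h0
  exact hc (congrFun h0 ⟨a, ⟨J, hJ⟩⟩)

/-- The height of a component of the linear form. -/
theorem fht_comp (h : LineC F dg x y c) {a : A}
    (hex : ∃ J, J.degree = dg a - 1 ∧ c a J ≠ 0) :
    fht k (fun J : {J : Fin (n + 1) →₀ ℕ // J.degree = dg a - 1} => c a J.1) ≤
      fht k (cf dg c) := by
  classical
  have hfd : ∀ a, Finite {J : Fin (n + 1) →₀ ℕ // J.degree = dg a - 1} := fun a =>
    finite_deg n (dg a - 1)
  obtain ⟨g, hg⟩ : ∃ g : {J : Fin (n + 1) →₀ ℕ // J.degree = dg a - 1} → L, ∀ J, g J = c a J.1 :=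
    ⟨_, fun _ => rfl⟩
  have hgc : (fun J : {J : Fin (n + 1) →₀ ℕ // J.degree = dg a - 1} => c a J.1) = g :=
    funext fun J => (hg J).symm
  rw [hgc]
  have hg0 : g ≠ 0 := by
    obtain ⟨J, hJ, hc⟩ := hex
    intro h0
    apply hc
    rw [← hg ⟨J, hJ⟩, h0]
    rfl
  have h0 := cf_ne h
  have hle : ∀ P : Place k L, po P (cf dg c) ≤ po P g := fun P =>
    le_po P hg0 fun J => by
      rw [hg]
      exact ge_po P (cf dg c) ⟨a, J⟩
  have h2 := finsum_le_finsum' (f := fun P : Place k L => po P (cf dg c))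
    (g := fun P : Place k L => po P g) (po_finite h0) (po_finite hg0) hle
  unfold fht
  linarith

/-- The height of the linear form, at a point of the line. -/
theorem LineC.ht_alt (h : LineC F dg x y c) (hF : ∀ a, (F a).IsHomogeneous (dg a))
    (hD : TH145.GC.Dual F dg D) (hdg : ∀ a, 2 ≤ dg a) (s : L)
    (hp : pht k (Pt x y s) ≤ fht k (pl x y)) :
    fht k (pl x y) - pht k (Pt x y s) ≤ fht k (cf dg c) ∨
    ∃ a, eval (Pt x y s) (F a) ≠ 0 ∧
      ((dg a : ℤ) - 1) * pht k (Pt x y s) ≤ fht k (cf dg c) := by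
  classical
  have h3 : 0 ≤ pht k (Pt x y s) := Pool.Agent.Y741.pht_nonneg (Pt_ne h.pl0 s)
  obtain ⟨B, hB1, hB0⟩ := exists_aA h.pl0 s
  rcases h.exists_a hF hD hdg s hB1 hB0 with ⟨a, S, hS, hSc⟩ | ⟨a, b, hb, hFa, hbP⟩
  · left
    have hda := hdg a
    have hSh : (lf B * S).IsHomogeneous (dg a - 1) := by
      have h2 := (lf_hom B).mul hS
      have h3 : 1 + (dg a - 2) = dg a - 1 := by omega
      rwa [h3] at h2
    have hex : ∃ J, J.degree = dg a - 1 ∧ c a J ≠ 0 := by
      by_contra hcon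
      push Not at hcon
      exact hSc (cQ_zero hcon hSh)
    have hLF := h.lineF hex
    obtain ⟨i, b, hi, hb, hSb⟩ := hLF.exists_i s hB1 hB0
    have hi1 : 1 ≤ i := by
      by_contra hcon
      have hi0 : i = 0 := by omega
      subst hi0
      apply hSc
      have h1 := hSb (lf B * S) hSh
      rw [pow_zero, one_mul] at h1
      rw [h1, map_mul, eval_lf, hB0, zero_mul, mul_zero]
    have h1 := hLF.ht_ge (k := k) s hB1 hB0 hi hb hSb
    have h2 := fht_comp (k := k) h hex
    have h4 : (1 : ℤ) ≤ i := by exact_mod_cast hi1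
    have h5 : (0 : ℤ) ≤ ((dg a - 1 - i : ℕ) : ℤ) := by positivity
    nlinarith
  · right
    refine ⟨a, hFa, ?_⟩
    have hda := hdg a
    have hz := Pt_ne h.pl0 s
    obtain ⟨q, hq⟩ := Function.ne_iff.1 hz
    have hq' : Pt x y s q ≠ 0 := hq
    have hex : ∃ J, J.degree = dg a - 1 ∧ c a J ≠ 0 := by
      by_contra hcon
      push Not at hcon
      have h1 := hbP (X q ^ (dg a - 1)) (pow_hom q _)
      rw [cQ_zero hcon (pow_hom q _), map_pow, eval_X] at h1
      exact mul_ne_zero hb (pow_ne_zero _ hq') h1.symm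
    have hLF := h.lineF hex
    have h1 := hLF.ht_ge (k := k) s hB1 hB0 (i := 0) (b := b) (Nat.zero_le _) hb fun S hS => by
      rw [pow_zero, one_mul]
      exact hbP S hS
    have h2 := fht_comp (k := k) h hex
    have h4 : ((dg a - 1 - 0 : ℕ) : ℤ) = (dg a : ℤ) - 1 := by
      rw [Nat.sub_zero]
      push_cast [Nat.cast_sub (by omega : 1 ≤ dg a)]
      ring
    rw [h4, Nat.cast_zero, zero_mul, zero_add] at h1
    linarith

end

end Pool.Agent.H435.CV
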