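import Pool.Agent.H435.CV.One

/-!
The degree of a curve in a generic complete intersection of dimension two, or a line with a
linear form through its points.
-/

set_option autoImplicit false
set_option linter.unusedSectionVars false
set_option linter.unusedSimpArgs false

open MvPolynomial FF Pool.Agent.W603.LV Pool.Agent.W603.PV Pool.Agent.TH145.GH
open Pool.Agent.Y735 (lf lf_apply lf_hom eval_lf pm lf_pm sum_pm eval_pm tm pl vol vol_apply po
  po_le exists_po fht fht_fin fht_nonneg sum_two po_finite)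
open Pool.Agent.W602.GT Pool.Agent.TH145.GF

namespace Pool.Agent.H435.CV

open Pool.Agent.Y741
open Pool.Agent.H435.VG (ge_po le_po fun_eval cQ cQ_monomial cQ_apply lin_hom fht_prod)
open Pool.Agent.H435.CT (T3)
open Pool.Agent.H435.SC (deg_ineq)

/-- The data of the rows with one vector of the linear group. -/
def rw1 {n : ℕ} {A : Type} (v : (Fin (n + 1) × Fin (n + 1)) ⊕ A) :
    RN n A (Fin 1) (Fin 0) (Fin 0) (Fin 0) :=
  ⟨fun _ => v, fun e => e.elim0, fun e => e.elim0, fun e => e.elim0, fun e => e.elim0,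
    fun e => e.elim0, fun e => e.elim0⟩

theorem tm_single {K : Type} [Field K] {n : ℕ} {x : Fin (n + 1) → K} {b c j : Fin (n + 1)}
    (hb : b ≠ j) (hc : c ≠ j) :
    tm (pl x (Pi.single j 1)) (b, c, j) = -pm x b c := by
  funext l
  simp only [tm, pl, pm, Pi.neg_apply]
  rw [Pi.single_eq_of_ne hb, Pi.single_eq_of_ne hc, Pi.single_eq_same]
  split_ifs <;> ring

/-- Two different lines through the point. -/
theorem two_lines {k L : Type} [Field k] [Field L] [Algebra k L] [IsAlgClosed k] [CharZero k]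
    [IsFF k L] {n : ℕ} {ι : Type} [Finite ι] {Θ : ι → L} (hΘ : Θ ≠ 0) {x y z : Fin (n + 1) → L}
    (hx0 : x ≠ 0) (hy : ∀ q, ∃ j, Θ j = pl x y q) (hz : ∀ q, ∃ j, Θ j = pl x z q)
    {a b c : Fin (n + 1)} (hM : x a * (y b * z c - y c * z b) - x b * (y a * z c - y c * z a) +
      x c * (y a * z b - y b * z a) ≠ 0) : pht k x ≤ 2 * fht k Θ := by
  obtain ⟨M, hMd⟩ : ∃ M, M = x a * (y b * z c - y c * z b) - x b * (y a * z c - y c * z a) +
    x c * (y a * z b - y b * z a) := ⟨_, rfl⟩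
  rw [← hMd] at hM
  have hfin : {P : Place k L | (fun _ : Place k L => (0 : ℤ)) P ≠ 0}.Finite := by simp
  have h1 := sum_two (k := k) hx0 hΘ (a := -1) (b := 2) (c := 0) (g := (1 : L))
    (Θ := M) hfin (fun P => by
      obtain ⟨e, he, heP⟩ := exists_pord P (Function.ne_iff.1 hx0)
      have h2 : ∀ q, Ge P (po P Θ) (pl x y q) := fun q => by
        obtain ⟨j, hj⟩ := hy q
        rw [← hj]
        exact ge_po P Θ j
      have h3 : ∀ q, Ge P (po P Θ) (pl x z q) := fun q => by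
        obtain ⟨j, hj⟩ := hz q
        rw [← hj]
        exact ge_po P Θ j
      have h4 : x e * (x e * M) =
          x a * (pl x y (e, b) * pl x z (e, c) - pl x y (e, c) * pl x z (e, b)) -
          x b * (pl x y (e, a) * pl x z (e, c) - pl x y (e, c) * pl x z (e, a)) +
          x c * (pl x y (e, a) * pl x z (e, b) - pl x y (e, b) * pl x z (e, a)) := by
        rw [hMd]
        simp only [pl]
        ring
      have h5 : ∀ p q r s, Ge P (po P Θ + po P Θ) (pl x y p * pl x z q - pl x y r * pl x z s) :=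
        fun p q r s => ((h2 p).mul (h3 q)).sub ((h2 r).mul (h3 s))
      have h6 : Ge P (pord P x + (po P Θ + po P Θ)) (x e * (x e * M)) := by
        rw [h4]
        exact (((ge_pord P x a).mul (h5 _ _ _ _)).sub ((ge_pord P x b).mul (h5 _ _ _ _))).add
          ((ge_pord P x c).mul (h5 _ _ _ _))
      have h7 := h6.resolve_left (mul_ne_zero he (mul_ne_zero he hM))
      rw [P.ord_mul he (mul_ne_zero he hM), P.ord_mul he hM, heP] at h7
      linarith)
  rw [finsum_zero] at h1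
  linarith

/-- A linear form on the families of forms of degrees `d - 1` on the line through `x` and `y`,
that vanishes at the derivatives of `F`. -/
structure LineC {L : Type} [Field L] {n : ℕ} {A : Type} [Fintype A]
    (F : A → MvPolynomial (Fin (n + 1)) L) (dg : A → ℕ)
    (x y : Fin (n + 1) → L) (c : A → (Fin (n + 1) →₀ ℕ) → L) : Prop where
  pl0 : pl x y ≠ 0
  ex : ∃ a J, J.degree = dg a - 1 ∧ c a J ≠ 0
  van : ∀ a, ∀ m : Fin (n + 1) → L, ∑ l, m l * x l = 0 → ∑ l, m l * y l = 0 →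
    ∀ S : MvPolynomial (Fin (n + 1)) L, S.IsHomogeneous (dg a - 2) → cQ (c a) (lf m * S) = 0
  jac : ∀ p, ∑ a, cQ (c a) (pderiv p (F a)) = 0

/-- The indices of the coordinates of the linear form. -/
abbrev Ci (n : ℕ) {A : Type} (dg : A → ℕ) : Type :=
  (a : A) × {J : Fin (n + 1) →₀ ℕ // J.degree = dg a - 1}

/-- The coordinates of the linear form. -/
def cf {L : Type} {n : ℕ} {A : Type} (dg : A → ℕ) (c : A → (Fin (n + 1) →₀ ℕ) → L) :
    Ci n dg → L := fun q => c q.1 q.2.1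

section

variable {k L : Type} [Field k] [Field L] [Algebra k L] [IsAlgClosed k] [CharZero k] [IsFF k L]
  {n : ℕ} {A : Type} [DecidableEq A] [Fintype A]
  {F : Fam L n A} {dg : A → ℕ} {D : A → (Fin (n + 1) →₀ ℕ) → Derivation ℤ L L}
  {E : Fin 1 → Derivation k L L} {x : Fin (n + 1) → L}
  (hpos : ∀ a, 0 < dg a) (hF : ∀ a, (F a).IsHomogeneous (dg a)) (hD : TH145.GC.Dual F dg D)
  (hS : ∀ a I, Sem k (D a I)) {t : Fin 1 → L} (ht : IsTranscendenceBasis k t)
  (hEt : ∀ i j, E i (t j) = if i = j then 1 else 0)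
  (hFk : ∀ a u, ∃ c : k, (F a).coeff u = algebraMap k L c)
  (hxC : ∀ a, eval x (F a) = 0) (hn : n = Fintype.card A + 2)

include hEt in
omit [IsAlgClosed k] [CharZero k] [IsFF k L] in
theorem E_ne : E 0 ≠ 0 := by
  intro h0
  have h1 := hEt 0 0
  rw [h0, if_pos rfl] at h1
  exact zero_ne_one h1

include hpos hF hD hS ht hEt hFk hxC hn

/-- The order of the volume of a vector field. -/
theorem ge_Lm (V : Rw A ≃ Fin (n + 1)) {a0 : Fin (n + 1)} (ha0 : x a0 = 1) (Q : Place k L)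
    {y : Fin (n + 1) → L} {ik : Fin (n + 1) × Fin (n + 1)} (hik : pl x y ik ≠ 0)
    {P : A → MvPolynomial (Fin (n + 1)) ℕ} (hP : ∀ a, (P a).IsHomogeneous (dg a - 1))
    (τ : T3 n) :
    Ge Q ((((n + 1 : ℕ) : ℤ) - ((∑ a, dg a : ℕ) : ℤ)) * pord Q x + po Q (pl x y) + vo Q (E 0))
      (Lm dg D (vE E) x V a0 (vq D x (nf L P) (tm (pl x y) τ))) := by
  classical
  by_cases hY : Lm dg D (vE E) x V a0 (vq D x (nf L P) (tm (pl x y) τ)) = 0
  · exact Or.inl hY
  have hFF : IsFF k L := inferInstance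
  have htr : Algebra.trdeg k L = (1 : ℕ) := by rw [hFF.trdeg, Nat.cast_one]
  have hEF : ∀ ξ a u, vE E ξ ((F a).coeff u) = 0 := fun ξ a u => by
    obtain ⟨c, hc⟩ := hFk a u
    rw [hc]
    exact (E ξ).map_algebraMap c
  have hxC' : ∀ c ∈ (Finset.univ : Finset A), eval x (F c) = 0 := fun c _ => hxC c
  have hmem : vq D x (nf L P) (tm (pl x y) τ) ∈ TC F Finset.univ x :=
    vq_mem_TC hpos hF hD hxC' (fun a => nf_hom hP a) (Pool.Agent.Y735.sum_tm x y τ).1
  have h3 := TC_le3 (E := vE E) hF hD hxC hn hEF V ha0 hmem hY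
  have hTC : TC F Finset.univ x ≤ Submodule.span L (rowE F dg D (vE E) Finset.univ x y a0 ik
      ((ru P τ).rd L) '' {l | rk l < 3}) := by
    refine h3.trans ?_
    rw [Submodule.span_le, rowE_eq]
    intro z hz
    rcases hz with rfl | rfl | hz
    · exact Submodule.subset_span ⟨Sum.inr none, by simp [rk], rfl⟩
    · exact Submodule.subset_span ⟨Sum.inr (some (Sum.inl (Sum.inl 0))), by simp [rk], rfl⟩
    · rw [Set.mem_singleton_iff] at hz
      rw [hz]
      exact Submodule.subset_span ⟨p1, by simp [rk, p1], rfl⟩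
  have hvol : ∀ Dd : Fin 1 → Derivation k L L,
      vol V (rowE F dg D (vE Dd) Finset.univ x y a0 ik ((ru P τ).rd L)) =
      Lm dg D (vE Dd) x V a0 (vq D x (nf L P) (tm (pl x y) τ)) := fun Dd => by
    rw [rowE_eq, Lm_apply]
  have hdet : vol V (rowE F dg D (vE E) Finset.univ x y a0 ik ((ru P τ).rd L)) ≠ 0 := by
    rw [hvol]
    exact hY
  obtain ⟨δ, hδ⟩ : ∃ δ, δ = E 0 := ⟨_, rfl⟩
  have hδ0 : δ ≠ 0 := by
    rw [hδ]
    exact E_ne hEt
  have hπ := ord_unif Q
  have hδπ := der_pi_ne_zero hδ0 Q hπ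
  obtain ⟨Dd, hDd⟩ : ∃ Dd : Fin 1 → Derivation k L L, ∀ i, Dd i = (δ (unif Q))⁻¹ • δ :=
    ⟨fun _ => _, fun _ => rfl⟩
  have hcard : (Finset.univ : Finset A).card + 1 + (1 + Fintype.card (Fin 0)) +
      2 * Fintype.card (Fin 0) + Fintype.card (Fin 1) + Fintype.card (Fin 0) = n + 1 := by
    rw [Finset.card_univ, Fintype.card_fin, Fintype.card_fin]
    omega
  have h1 := ord_phi hpos hF hD one_pos htr (div_one Q) hS ht hEt hFk (Dd := Dd) (by
      rw [Matrix.det_unique, Matrix.of_apply, hDd]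
      change (δ (unif Q))⁻¹ * δ (t default) ≠ 0
      rw [hδ, show (default : Fin 1) = 0 from rfl, hEt 0 0, if_pos rfl, mul_one, ← hδ]
      exact inv_ne_zero hδπ) (fun c _ => hxC c)
    (fun b hb => absurd (Finset.mem_univ b) hb) (by rw [ha0]; exact one_ne_zero) hik
    ((ru P τ).rd L) (fun e => e.elim0) (fun _ a => nf_hom hP a) (fun e => e.elim0)
    (fun e => e.elim0) (fun b a => nf_nc _ a) (fun e => e.elim0)
    (fun e => e.elim0) hTC hcard V hdet
    (Or.inl ⟨fun i f hf => by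
      rw [hDd]
      exact der_reg Q hπ ((δ (unif Q))⁻¹ • δ) (by simp [hδπ]) hf,
      fun b hb => absurd (Finset.mem_univ b) hb⟩)
  have h2 : vol V (rowE F dg D (vE Dd) Finset.univ x y a0 ik ((ru P τ).rd L)) =
      (δ (unif Q))⁻¹ * vol V (rowE F dg D (vE E) Finset.univ x y a0 ik ((ru P τ).rd L)) := by
    have h3 := vol_lin (F := F) (dg := dg) (D := D) (E1 := vE Dd) (E2 := vE E)
      (C := Finset.univ) (x := x) (y := y) (i0 := a0) (ik := ik) ((ru P τ).rd L) V
      (Matrix.of fun _ _ => (δ (unif Q))⁻¹) (fun ξ f => by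
        rw [Fin.sum_univ_one, Matrix.of_apply]
        change Dd ξ f = (δ (unif Q))⁻¹ * E 0 f
        rw [hDd, ← hδ]
        rfl)
    rw [Matrix.det_unique, Matrix.of_apply] at h3
    exact h3
  have h4 : (∏ c ∈ (Finset.univ : Finset A), x a0 ^ dg c) *
      ∏ b ∈ (Finset.univ : Finset A)ᶜ, eval x (F b) = 1 := by
    rw [Finset.compl_univ, Finset.prod_empty, mul_one, ha0]
    simp
  rw [h4, h2, hvol, _root_.div_one] at h1
  rw [Q.ord_mul (inv_ne_zero hδπ) hY, Q.ord_inv, Fintype.card_fin, Fintype.card_fin] at h1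
  right
  rw [← hδ]
  unfold vo
  push_cast at h1 ⊢
  linarith

/-- The order of the coordinates of the lines at a place. -/
theorem ge_Y (V : Rw A ≃ Fin (n + 1)) {a0 l0 : Fin (n + 1)} (ha0 : x a0 = 1)
    (hl0 : x l0 ≠ 0) (hne : l0 ≠ a0) (Q : Place k L) (a : A) {J : Fin (n + 1) →₀ ℕ}
    (hJ : J.degree = dg a - 1) (q : Fin (n + 1) × Fin (n + 1)) :
    Ge Q ((((n + 2 : ℕ) : ℤ) - ((∑ a, dg a : ℕ) : ℤ)) * pord Q x + vo Q (E 0))
      (pl x (Yx dg D (vE E) x V a0 a J) q) := by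
  classical
  obtain ⟨b, c⟩ := q
  by_cases hbc : b = c
  · left
    rw [hbc]
    simp only [pl]
    ring
  obtain ⟨j, hjb, hjc⟩ : ∃ j : Fin (n + 1), b ≠ j ∧ c ≠ j := by
    by_contra hcon
    push Not at hcon
    have h1 : (Finset.univ : Finset (Fin (n + 1))) ⊆ {b, c} := by
      intro i _
      by_cases h2 : b = i
      · rw [← h2]; exact Finset.mem_insert_self _ _
      · rw [← hcon i h2]; exact Finset.mem_insert_of_mem (Finset.mem_singleton_self _)
    have h2 := Finset.card_le_card h1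
    rw [Finset.card_univ, Fintype.card_fin] at h2
    have h3 := Finset.card_insert_le b {c}
    rw [Finset.card_singleton] at h3
    omega
  obtain ⟨i, hij, hi⟩ : ∃ i, i ≠ j ∧ x i ≠ 0 := by
    by_cases hj : j = a0
    · exact ⟨l0, by rw [hj]; exact hne, hl0⟩
    · exact ⟨a0, fun h => hj h.symm, by rw [ha0]; exact one_ne_zero⟩
  obtain ⟨y, hy⟩ : ∃ y : Fin (n + 1) → L, y = Pi.single j 1 := ⟨_, rfl⟩
  have hik : pl x y (i, j) ≠ 0 := by
    simp only [pl]
    rw [hy, Pi.single_eq_same, Pi.single_eq_of_ne hij, mul_one, mul_zero, sub_zero]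
    exact hi
  have hpl0 : pl x y ≠ 0 := fun h0 => hik (by rw [h0]; rfl)
  obtain ⟨P, hPd⟩ : ∃ P : A → MvPolynomial (Fin (n + 1)) ℕ, P = Pi.single a (monomial J 1) :=
    ⟨_, rfl⟩
  have hP : ∀ a, (P a).IsHomogeneous (dg a - 1) := fun a' => by
    rw [hPd]
    by_cases h : a' = a
    · subst h
      rw [Pi.single_eq_same]
      exact isHomogeneous_monomial 1 hJ
    · rw [Pi.single_eq_of_ne h]
      exact isHomogeneous_zero _ _ _
  have hnf : nf L P = Pi.single a (monomial J 1) := by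
    funext a'
    unfold nf
    rw [hPd]
    by_cases h : a' = a
    · subst h
      rw [Pi.single_eq_same, Pi.single_eq_same, MvPolynomial.map_monomial, map_one]
    · rw [Pi.single_eq_of_ne h, Pi.single_eq_of_ne h, map_zero]
  have h1 := ge_Lm hpos hF hD hS ht hEt hFk hxC hn V ha0 Q hik hP (b, c, j)
  have h2 : Lm dg D (vE E) x V a0 (vq D x (nf L P) (tm (pl x y) (b, c, j))) =
      -pl x (Yx dg D (vE E) x V a0 a J) (b, c) := by
    rw [hy, tm_single hjb hjc, map_neg, map_neg, ← Tf_pm dg D (vE E) x V ha0 a J b c, Tf_apply,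
      vq_apply, hnf]
    congr 3
    funext a'
    rw [ql_apply]
    by_cases h : a' = a
    · subst h
      rw [Pi.single_eq_same, Pi.single_eq_same, mul_comm]
    · rw [Pi.single_eq_of_ne h, Pi.single_eq_of_ne h, zero_mul]
  rw [h2] at h1
  have hpo : pord Q x ≤ po Q (pl x y) := by
    refine le_po Q hpl0 fun q => ?_
    have hs : ∀ j', Ge Q 0 (y j') := by
      intro j'
      rw [hy]
      by_cases hj : j' = j
      · rw [hj, Pi.single_eq_same]
        exact Ge.one
      · rw [Pi.single_eq_of_ne hj]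
        exact Ge.zero
    have h3 : ∀ u v, Ge Q (pord Q x) (x u * y v) := fun u v => by
      have h4 := (ge_pord Q x u).mul (hs v)
      rwa [add_zero] at h4
    exact (h3 _ _).sub (h3 _ _)
  have h5 := h1.neg
  rw [neg_neg] at h5
  refine h5.mono ?_
  push_cast
  linarith

/-- The degree of the curve if a vector of the linear group has positive volume. -/
theorem degA (V : Rw A ≃ Fin (n + 1)) {a0 l0 : Fin (n + 1)} (ha0 : x a0 = 1)
    (hne : l0 ≠ a0) (hsum : n + 1 ≤ ∑ a, dg a) {v : (Fin (n + 1) × Fin (n + 1)) ⊕ A}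
    (hv : Lm dg D (vE E) x V a0 (ww F D x v) ≠ 0) :
    (((∑ a, dg a : ℕ) : ℤ) - n - 1) * pht k x ≤ canDeg k L := by
  classical
  have hFF : IsFF k L := inferInstance
  have htr : Algebra.trdeg k L = (1 : ℕ) := by rw [hFF.trdeg, Nat.cast_one]
  have hEF : ∀ ξ a u, vE E ξ ((F a).coeff u) = 0 := fun ξ a u => by
    obtain ⟨c, hc⟩ := hFk a u
    rw [hc]
    exact (E ξ).map_algebraMap c
  have hxC' : ∀ c ∈ (Finset.univ : Finset A), eval x (F c) = 0 := fun c _ => hxC c
  have h3 := TC_le3 (E := vE E) hF hD hxC hn hEF V ha0 (ww_mem_TC hpos hF hD hxC' v) hv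
  obtain ⟨y, hy⟩ : ∃ y : Fin (n + 1) → L, y = Pi.single l0 1 := ⟨_, rfl⟩
  have hik : pl x y (a0, l0) ≠ 0 := by
    simp only [pl]
    rw [hy, Pi.single_eq_same, Pi.single_eq_of_ne hne.symm, mul_one, mul_zero, sub_zero, ha0]
    exact one_ne_zero
  have hrn : VRE F dg D (vE E) Finset.univ x y a0 (a0, l0) (rw1 v) := by
    refine ⟨fun e => e.elim0, fun e => e.elim0, fun e => e.elim0, fun e => e.elim0, ?_, ?_⟩
    · rw [Finset.card_univ, Fintype.card_fin, Fintype.card_fin]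
      omega
    · refine h3.trans ?_
      rw [Submodule.span_le]
      intro z hz
      rcases hz with rfl | rfl | hz
      · exact Submodule.subset_span ⟨Sum.inr none, by simp [rk], rfl⟩
      · exact Submodule.subset_span ⟨Sum.inr (some (Sum.inl (Sum.inl 0))), by simp [rk], rfl⟩
      · rw [Set.mem_singleton_iff] at hz
        rw [hz]
        exact Submodule.subset_span ⟨Sum.inr (some (Sum.inl (Sum.inr 0))), by simp [rk], rfl⟩
  obtain ⟨h, hh⟩ : ∃ h, h = ∑ a, dg a - (n + 1) := ⟨_, rfl⟩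
  obtain ⟨Φ, hlin, hΦE, hΦ⟩ := exists_phi hpos hF hD one_pos htr hS ht hEt hFk hxC'
    (fun b hb => absurd (Finset.mem_univ b) hb) (by rw [ha0]; exact one_ne_zero) hik (rw1 v) hrn
    (h := h) (r := 0) (by simp only [Fintype.card_fin]; omega)
    (by simp only [Fintype.card_fin])
  have h4 := deg_ineq (h := h) (r := (0 : ℕ)) (by rw [ha0]; exact one_ne_zero) hik hlin hΦE
    fun Q Dd hDd => hΦ Q (div_one Q) Dd (Or.inl ⟨hDd, fun b hb => absurd (Finset.mem_univ b) hb⟩)
  have h5 : (h : ℤ) = ((∑ a, dg a : ℕ) : ℤ) - n - 1 := by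
    rw [hh]
    push_cast [Nat.cast_sub hsum]
    ring
  rw [h5, Nat.cast_zero, zero_mul, add_zero] at h4
  exact h4

omit hpos hF hD hS ht hFk hxC hn in
/-- The degree of the curve and the height of the volumes. -/
theorem deg_fam {S : ℤ} (hx0 : x ≠ 0) {ι : Type} [Finite ι] {Θ : ι → L} (hΘ : Θ ≠ 0)
    (hge : ∀ (P : Place k L) j, Ge P (S * pord P x + vo P (E 0)) (Θ j)) :
    -S * pht k x + fht k Θ ≤ canDeg k L := by
  have hδ0 := E_ne hEt
  have h1 := sum_two (k := k) hx0 hΘ (a := S) (b := -1) (c := 0) (g := (1 : L))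
    (Θ := (1 : L)) (C := fun Q => -vo Q (E 0)) (by
      refine (vo_finite (k := k) hδ0).subset fun P hP => ?_
      intro h0
      apply hP
      rw [h0, neg_zero]) (fun P => by
      rw [P.ord_one]
      have h2 := le_po P hΘ (hge P)
      linarith)
  have h2 : ∑ᶠ P : Place k L, -vo P (E 0) = canDeg k L := by
    rw [canDeg_eq hδ0, finsum_neg_distrib]
  rw [h2] at h1
  linarith

/-- The degree of a curve in a generic complete intersection of dimension two, or the line that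
is attached to its points. -/
theorem part1 {a0 l0 : Fin (n + 1)} (ha0 : x a0 = 1) (hl0 : E 0 (x l0) ≠ 0)
    (hdg : ∀ a, 2 ≤ dg a) (hsum : n + 2 ≤ ∑ a, dg a) :
    (2 * ((∑ a, dg a : ℕ) : ℤ) - 2 * n - 3) * pht k x ≤ 2 * canDeg k L ∨
    ∃ (y : Fin (n + 1) → L) (c : A → (Fin (n + 1) →₀ ℕ) → L), LineC F dg x y c ∧
      (((∑ a, dg a : ℕ) : ℤ) - n - 2) * pht k x + fht k (pl x y) + fht k (cf dg c) ≤
        canDeg k L := by
  classical
  have hx0 : x ≠ 0 := by
    rintro rfl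
    exact zero_ne_one ha0
  have hne : l0 ≠ a0 := by
    rintro rfl
    rw [ha0, (E 0).map_one_eq_zero] at hl0
    exact hl0 rfl
  have hxl0 : x l0 ≠ 0 := by
    intro h0
    rw [h0, map_zero] at hl0
    exact hl0 rfl
  have hp0 : 0 ≤ pht k x := Pool.Agent.Y741.pht_nonneg hx0
  have hEF : ∀ ξ a u, vE E ξ ((F a).coeff u) = 0 := fun ξ a u => by
    obtain ⟨c, hc⟩ := hFk a u
    rw [hc]
    exact (E ξ).map_algebraMap c
  have hEc : Fintype.card (Rw A) = Fintype.card (Fin (n + 1)) := by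
    simp only [Fintype.card_option, Fintype.card_sum, Fintype.card_fin, Fintype.card_coe,
      Finset.card_univ]
    omega
  obtain ⟨V⟩ : Nonempty (Rw A ≃ Fin (n + 1)) := Fintype.card_eq.1 hEc
  have hind : LinearIndependent L ![x, fun l => vE E 0 (x l)] := by
    rw [LinearIndependent.pair_iff]
    intro s r hsr
    have h1 := congrFun hsr a0
    have h2 := congrFun hsr l0
    change s * x a0 + r * E 0 (x a0) = 0 at h1
    change s * x l0 + r * E 0 (x l0) = 0 at h2
    rw [ha0, (E 0).map_one_eq_zero, mul_zero, add_zero, mul_one] at h1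
    rw [h1, zero_mul, zero_add] at h2
    exact ⟨h1, (mul_eq_zero.1 h2).resolve_right hl0⟩
  obtain ⟨w, hw, hwL⟩ := exists_tan (E := vE E) hF hD hxC hn hEF V ha0 hind
  obtain ⟨S, hSd⟩ : ∃ S : ℤ, S = ((∑ a, dg a : ℕ) : ℤ) := ⟨_, rfl⟩
  have hS2 : (n : ℤ) + 2 ≤ S := by
    rw [hSd]
    exact_mod_cast hsum
  by_cases hww : ∃ v, Lm dg D (vE E) x V a0 (ww F D x v) ≠ 0
  · obtain ⟨v, hv⟩ := hww
    left
    have h1 := degA hpos hF hD hS ht hEt hFk hxC hn V ha0 hne (by omega) hv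
    rw [← hSd] at h1 ⊢
    nlinarith
  push Not at hww
  obtain ⟨b0, J0, e0, hJ0, hΦ0⟩ := exists_Y (E := vE E) hF hD hxC hpos V ha0 hw hwL hww
  have hfd : ∀ a, Finite {J : Fin (n + 1) →₀ ℕ // J.degree = dg a - 1} := fun a =>
    finite_deg n (dg a - 1)
  obtain ⟨y, hy⟩ : ∃ y, y = Yx dg D (vE E) x V a0 b0 J0 := ⟨_, rfl⟩
  have hyi : y a0 = 0 := by rw [hy, Yx_a0]
  have hye : y e0 ≠ 0 := by rw [hy]; exact hΦ0
  have hpl : pl x y (a0, e0) ≠ 0 := by
    simp only [pl]
    rw [ha0, hyi, mul_zero, sub_zero, one_mul]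
    exact hye
  have hpl0 : pl x y ≠ 0 := fun h0 => hpl (by rw [h0]; rfl)
  have hgeY := fun (P : Place k L) (a : A) (J : {J : Fin (n + 1) →₀ ℕ // J.degree = dg a - 1})
    q => ge_Y hpos hF hD hS ht hEt hFk hxC hn V ha0 hxl0 hne P a J.2 q
  have hcS : (((n + 2 : ℕ) : ℤ) - ((∑ a, dg a : ℕ) : ℤ)) = (n : ℤ) + 2 - S := by
    rw [hSd]
    push_cast
    ring
  by_cases hM : ∃ a' J a b c, J.degree = dg a' - 1 ∧
    x a * (y b * Yx dg D (vE E) x V a0 a' J c - y c * Yx dg D (vE E) x V a0 a' J b) -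
      x b * (y a * Yx dg D (vE E) x V a0 a' J c - y c * Yx dg D (vE E) x V a0 a' J a) +
      x c * (y a * Yx dg D (vE E) x V a0 a' J b - y b * Yx dg D (vE E) x V a0 a' J a) ≠ 0
  · -- two lines
    left
    obtain ⟨a', J, a, b, c, hJ, hM⟩ := hM
    obtain ⟨Θ, hΘ⟩ : ∃ Θ : (Fin (n + 1) × Fin (n + 1)) × Ci n dg → L,
        ∀ q, Θ q = pl x (Yx dg D (vE E) x V a0 q.2.1 q.2.2.1) q.1 := ⟨_, fun _ => rfl⟩
    have hΘ0 : Θ ≠ 0 := by
      intro h0
      apply hpl
      have h1 := congrFun h0 ((a0, e0), ⟨b0, ⟨J0, hJ0⟩⟩)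
      rw [hΘ] at h1
      rw [hy]
      exact h1
    have h1 := deg_fam (S := (n : ℤ) + 2 - S) hEt hx0 hΘ0 fun P j => by
      rw [hΘ, ← hcS]
      exact hgeY P _ _ _
    have h2 := two_lines (k := k) hΘ0 hx0 (y := y) (z := Yx dg D (vE E) x V a0 a' J)
      (fun q => ⟨(q, ⟨b0, ⟨J0, hJ0⟩⟩), by rw [hΘ, hy]⟩)
      (fun q => ⟨(q, ⟨a', ⟨J, hJ⟩⟩), by rw [hΘ]⟩) hM
    rw [← hSd]
    nlinarith
  push Not at hM
  right
  have hprop : ∀ a' (J : Fin (n + 1) →₀ ℕ), J.degree = dg a' - 1 → ∀ l,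
      Yx dg D (vE E) x V a0 a' J l = Yx dg D (vE E) x V a0 a' J e0 / y e0 * y l := by
    intro a' J hJ l
    have h1 := hM a' J a0 e0 l hJ
    have h2 : Yx dg D (vE E) x V a0 a' J a0 = 0 := Yx_a0 _ _ _ _ V a0 a' J
    rw [h2, hyi, ha0] at h1
    field_simp
    linear_combination h1
  obtain ⟨c, hc⟩ : ∃ c : A → (Fin (n + 1) →₀ ℕ) → L,
      ∀ a J, c a J = Yx dg D (vE E) x V a0 a J e0 / y e0 := ⟨_, fun _ _ => rfl⟩
  -- the volumes of the products
  have hprod : ∀ (m : Fin (n + 1) → L), ∑ l, m l * x l = 0 → ∀ a,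
      ∀ R : MvPolynomial (Fin (n + 1)) L,
      R.IsHomogeneous (dg a - 1) → Tf dg D (vE E) x V a0 a (lf m * R) =
        (∑ l, m l * y l) * cQ (c a) R := by
    intro m hm a R hR
    have h1 := lin_hom (T := (Tf dg D (vE E) x V a0 a) ∘ₗ LinearMap.mulLeft L (lf m))
      (T' := (∑ l, m l * y l) • cQ (c a)) (e := dg a - 1) (fun J hJ => ?_) hR
    · exact h1
    · rw [LinearMap.comp_apply, LinearMap.mulLeft_apply,
        LinearMap.smul_apply, cQ_monomial, Yx_spec dg D (vE E) x V ha0 a J hm, smul_eq_mul,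
        Finset.sum_mul]
      refine Finset.sum_congr rfl fun l _ => ?_
      rw [hprop a J hJ l, hc]
      ring
  obtain ⟨m1, hm1, hm1y⟩ : ∃ m1 : Fin (n + 1) → L, ∑ l, m1 l * x l = 0 ∧
      ∑ l, m1 l * y l ≠ 0 := by
    refine ⟨pm x a0 e0, by rw [← eval_lf]; exact eval_pm x a0 e0, ?_⟩
    rw [sum_pm]
    exact hpl
  have hcJ0 : c b0 J0 ≠ 0 := by
    rw [hc, ← hy]
    exact div_ne_zero hye hye
  refine ⟨y, c, ⟨hpl0, ⟨b0, J0, hJ0, hcJ0⟩, fun a m hmx hmy R hR => ?_, fun p => ?_⟩, ?_⟩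
  · have hda := hdg a
    have h1 : (lf m * R).IsHomogeneous (dg a - 1) := by
      have h2 := (lf_hom m).mul hR
      have h3 : 1 + (dg a - 2) = dg a - 1 := by omega
      rwa [h3] at h2
    have h2 : (lf m1 * R).IsHomogeneous (dg a - 1) := by
      have h2 := (lf_hom m1).mul hR
      have h3 : 1 + (dg a - 2) = dg a - 1 := by omega
      rwa [h3] at h2
    have h3 := hprod m1 hm1 a _ h1
    have h4 := hprod m hmx a _ h2
    have h5 : lf m1 * (lf m * R) = lf m * (lf m1 * R) := by ring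
    rw [h5, h4, hmy, zero_mul] at h3
    exact (mul_eq_zero.1 h3.symm).resolve_left hm1y
  · have h1 : ∀ a, Tf dg D (vE E) x V a0 a (lf m1 * pderiv p (F a)) =
        (∑ l, m1 l * y l) * cQ (c a) (pderiv p (F a)) := fun a =>
      hprod m1 hm1 a _ ((hF a).pderiv (i := p))
    have h2 : Lm dg D (vE E) x V a0 (vA D x fun a => lf m1 * pderiv p (F a)) = 0 := by
      have h3 : vA D x (fun a => lf m1 * pderiv p (F a)) =
          ∑ q, m1 q • ww F D x (Sum.inl (p, q)) := by
        have h4 : ∑ q, m1 q • ww F D x (Sum.inl (p, q)) =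
            (∑ q, m1 q * x q) • (Pi.single p 1 : Fin (n + 1) → L) +
              vA D x (∑ q, m1 q • gf F (Sum.inl (p, q))) := by
          rw [map_sum, Finset.sum_smul, ← Finset.sum_add_distrib]
          refine Finset.sum_congr rfl fun q _ => ?_
          rw [map_smul]
          simp only [ww, smul_add, smul_smul]
        rw [h4, hm1, zero_smul, zero_add]
        congr 1
        funext a
        rw [Finset.sum_apply, lf_apply, Finset.sum_mul]
        refine Finset.sum_congr rfl fun q _ => ?_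
        rw [smul_mul_assoc]
        rfl
      rw [h3, map_sum]
      exact Finset.sum_eq_zero fun q _ => by rw [map_smul, hww, smul_zero]
    rw [Tf_sum, Finset.sum_congr rfl fun a _ => h1 a, ← Finset.mul_sum] at h2
    exact (mul_eq_zero.1 h2).resolve_left hm1y
  · have hg0 : cf dg c ≠ 0 := by
      intro h0
      apply hcJ0
      exact congrFun h0 ⟨b0, ⟨J0, hJ0⟩⟩
    have hΘ0 : (fun q : (Fin (n + 1) × Fin (n + 1)) × Ci n dg =>
        pl x y q.1 * cf dg c q.2) ≠ 0 := by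
      intro h0
      have h1 : pl x y (a0, e0) * c b0 J0 = 0 := congrFun h0 ((a0, e0), ⟨b0, ⟨J0, hJ0⟩⟩)
      exact mul_ne_zero hpl hcJ0 h1
    have h1 := deg_fam (S := (n : ℤ) + 2 - S) hEt hx0 hΘ0 fun P j => by
      have h2 : pl x y j.1 * cf dg c j.2 = pl x (Yx dg D (vE E) x V a0 j.2.1 j.2.2.1) j.1 := by
        unfold cf
        rw [hc]
        simp only [pl]
        rw [hprop _ _ j.2.2.2 j.1.2, hprop _ _ j.2.2.2 j.1.1]
        ring
      rw [h2, ← hcS]
      exact hgeY P _ _ _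
    rw [fht_prod hpl0 hg0] at h1
    rw [← hSd]
    linarith

end

end Pool.Agent.H435.CV
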